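import Pool.Agent.TH684.CX.LawN

/-!
# Nondeterministic exclusion and threshold gates: the theorem
-/

set_option autoImplicit false

namespace Pool.Agent.TH684.CX

open Pool.Agent.NPC Pool.Agent.H251R5.PQ Pool.Agent.W901.AT Pool.Agent.H579R2.Spt
open Pool.Agent.TH684.EX
open Pool.Agent.TH684.LT (exclF exclF_spec exclF_poly ftv ftv_poly eval_eq_linear dimF dimF_le
  exists_pow_add_bound)
open Pool.Agent.W920.LN (isSome_poly)

theorem NFeasible.mono {T T' : List (List Bool) → ℕ → Prop} (h : NFeasible T)
    (hT : ∀ qs l, T qs l → T' qs l) : NFeasible T' := by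
  obtain ⟨Y, p, b, c, hY, h⟩ := h
  refine ⟨Y, p, b, c, hY, fun n qs h1 h2 => ?_⟩
  obtain ⟨h3, h4⟩ := h n qs h1 h2
  exact ⟨h3, fun l hl => ⟨(h4 l hl).1, hT _ _ (h4 l hl).2⟩⟩

/-! ### Sets in `NP ∩ coNP` -/

/-- Decision of a set in `NP ∩ coNP` with a witness. -/
theorem decider_of_both {A : Set (List Bool)} (hA : InNP A) (hA' : InNP Aᶜ) :
    ∃ (D : List Bool × List Bool → Option Bool) (p : Polynomial ℕ), Poly D ∧
      (∀ y, ∃ w t, w.length ≤ p.eval y.length ∧ D (y, w) = some t) ∧
      ∀ y w t, D (y, w) = some t → (t = true ↔ y ∈ A) := by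
  classical
  obtain ⟨V1, p1, hV1, hA1⟩ := hA
  obtain ⟨V2, p2, hV2, hA2⟩ := hA'
  have e1 : Poly (fun q : List Bool × List Bool => q.1) := NPC.Poly.fst NPC.Poly.id
  have e2 : Poly (fun q : List Bool × List Bool => q.2) := NPC.Poly.snd NPC.Poly.id
  have et := NPC.Poly.tail e2
  refine ⟨fun q => bif q.2.head?.getD false then
      (bif ver V1 p1 q.1 q.2.tail then some true else none) else
      (bif ver V2 p2 q.1 q.2.tail then some false else none), p1 + p2 + 1, ?_, ?_, ?_⟩
  · exact NPC.Poly.cond (NPC.Poly.head?_getD e2 false)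
      (NPC.Poly.cond ((ver_poly hV1 p1).comp (NPC.Poly.pair e1 et)) (NPC.Poly.const _)
        (NPC.Poly.const _))
      (NPC.Poly.cond ((ver_poly hV2 p2).comp (NPC.Poly.pair e1 et)) (NPC.Poly.const _)
        (NPC.Poly.const _))
  · intro y
    by_cases hy : y ∈ A
    · obtain ⟨w, hw⟩ := (hA1 y).1 hy
      refine ⟨true :: w, true, ?_, ?_⟩
      · simp only [List.length_cons, Polynomial.eval_add, Polynomial.eval_one]
        have := hw.1
        omega
      · have h1 : ver V1 p1 y w = true := ver_iff.2 hw
        simp [h1]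
    · obtain ⟨w, hw⟩ := (hA2 y).1 hy
      refine ⟨false :: w, false, ?_, ?_⟩
      · simp only [List.length_cons, Polynomial.eval_add, Polynomial.eval_one]
        have := hw.1
        omega
      · have h1 : ver V2 p2 y w = true := ver_iff.2 hw
        simp [h1]
  · intro y w t h
    simp only at h
    cases hh : w.head?.getD false
    · rw [hh, cond_false] at h
      cases hv : ver V2 p2 y w.tail
      · rw [hv, cond_false] at h
        exact absurd h (by simp)
      · rw [hv, cond_true] at h
        have h1 : y ∈ Aᶜ := (hA2 y).2 ⟨_, ver_iff.1 hv⟩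
        rw [← Option.some.inj h]
        simpa using h1
    · rw [hh, cond_true] at h
      cases hv : ver V1 p1 y w.tail
      · rw [hv, cond_false] at h
        exact absurd h (by simp)
      · rw [hv, cond_true] at h
        have h1 : y ∈ A := (hA1 y).2 ⟨_, ver_iff.1 hv⟩
        rw [← Option.some.inj h]
        simpa using h1

/-- The algorithm that decides the first string of the list. -/
def yfst (D : List Bool × List Bool → Option Bool) (g : Bool → ℕ → ℕ) (z : List Bool) :
    Option ℕ :=
  (D ((dl (unpair z).1).getD 0 [], (unpair z).2)).elim none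
    fun t => some (g t (dl (unpair z).1).length)

theorem yfst_poly {D : List Bool × List Bool → Option Bool} (hD : Poly D) {g : Bool → ℕ → ℕ}
    (hg : Poly (fun q : Bool × ℕ => g q.1 q.2)) : Poly (yfst D g) := by
  have e1 : Poly (fun z : List Bool => dl (unpair z).1) := dl_poly.comp (NPC.Poly.fst poly_unpair)
  have e2 : Poly (fun z : List Bool => (unpair z).2) := NPC.Poly.snd poly_unpair
  refine (NPC.Poly.optCases (o := fun z : List Bool => D ((dl (unpair z).1).getD 0 [],
    (unpair z).2)) (g := fun _ => none)
    (h := fun z t => some (g t (dl (unpair z).1).length)) (hD.comp (NPC.Poly.pair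
      (NPC.Poly.getD e1 (NPC.Poly.const 0) (NPC.Poly.const [])) e2)) (NPC.Poly.const none)
    (NPC.Poly.some (hg.comp (NPC.Poly.pair (NPC.Poly.snd NPC.Poly.id)
      (NPC.Poly.length (e1.comp (NPC.Poly.fst NPC.Poly.id))))))).congr fun z => ?_
  unfold yfst
  cases D ((dl (unpair z).1).getD 0 [], (unpair z).2) <;> rfl

/-- Tasks that can be solved by deciding the first string. -/
theorem nfeasible_of_first {A : Set (List Bool)} (hA : InNP A) (hA' : InNP Aᶜ) (b : ℕ)
    {g : Bool → ℕ → ℕ} (hg : Poly (fun q : Bool × ℕ => g q.1 q.2))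
    {T : List (List Bool) → ℕ → Prop} (hgT : ∀ (n : ℕ) (qs : List (List Bool)) (t : Bool),
      qs.length = n ^ (b + 1) + (b + 1) → (t = true ↔ qs.getD 0 [] ∈ A) →
      g t qs.length ≤ qs.length ∧ T qs (g t qs.length)) : NFeasible T := by
  obtain ⟨D, p, hD, hD1, hD2⟩ := decider_of_both hA hA'
  refine ⟨yfst D g, p, b + 1, b + 1, polyTime_bits (yfst_poly hD hg), fun n qs h1 h2 => ?_⟩
  have hlen : (qs.getD 0 []).length ≤ (bits qs).length := by
    have hne : 0 < qs.length := by omega
    rw [List.getD_eq_getElem _ _ hne]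
    have e1 := sz_le_of_mem (List.getElem_mem hne)
    have e2 := length_lt_sz qs[0]
    have e3 := bits_length qs
    omega
  constructor
  · obtain ⟨w, t, hw, ht⟩ := hD1 (qs.getD 0 [])
    refine ⟨g t qs.length, w, hw.trans (eval_mono p hlen), ?_⟩
    unfold yfst
    simp only [unpair_pairBits, dl_bits]
    rw [ht]
    rfl
  · rintro l ⟨w, -, hl⟩
    unfold yfst at hl
    simp only [unpair_pairBits, dl_bits] at hl
    cases hDv : D (qs.getD 0 [], w) with
    | none => rw [hDv] at hl; exact absurd hl (by simp)
    | some t =>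
      rw [hDv] at hl
      simp only [Option.elim, Option.some.injEq] at hl
      subst hl
      obtain ⟨h3, h4⟩ := hgT n qs t h1 (hD2 _ _ _ hDv)
      exact ⟨h1 ▸ h3, h4⟩

theorem nfeasible_count {A : Set (List Bool)} (hA : InNP A) (hA' : InNP Aᶜ) :
    NFeasible (ExcludeCount A) := by
  classical
  refine nfeasible_of_first (g := fun t m => bif t then 0 else m) hA hA' 0
    (NPC.Poly.cond (NPC.Poly.fst NPC.Poly.id) (NPC.Poly.const 0) (NPC.Poly.snd NPC.Poly.id))
    fun n qs t h1 h2 => ?_
  have hne : 0 < qs.length := by omega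
  obtain ⟨y, ys, rfl⟩ := List.exists_cons_of_length_pos hne
  simp only [List.getD_cons_zero] at h2
  cases t
  · have hy : y ∉ A := fun h => by simpa using h2.2 h
    refine ⟨le_rfl, le_rfl, ?_⟩
    have h3 : (answers A ys).count true ≤ ys.length := by
      have := List.count_le_length (a := true) (l := answers A ys)
      simpa [answers] using this
    simp only [cond_false]
    have h4 : (answers A (y :: ys)).count true = (answers A ys).count true := by
      simp [answers, hy]
    rw [h4, List.length_cons]
    omega
  · have hy : y ∈ A := h2.1 rfl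
    refine ⟨Nat.zero_le _, Nat.zero_le _, ?_⟩
    simp [answers, hy]

theorem nfeasible_notOnly {A : Set (List Bool)} (hA : InNP A) (hA' : InNP Aᶜ) :
    NFeasible (NotOnly A) := by
  classical
  refine nfeasible_of_first (g := fun t _ => bif t then 1 else 0) hA hA' 1
    (NPC.Poly.cond (NPC.Poly.fst NPC.Poly.id) (NPC.Poly.const 1) (NPC.Poly.const 0))
    fun n qs t h1 h2 => ?_
  cases t
  · refine ⟨Nat.zero_le _, by simp only [cond_false]; omega, fun h3 => ?_⟩
    have h4 := (h3 0 (by omega)).2 rfl
    simpa using h2.2 h4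
  · refine ⟨by simp only [cond_true]; omega, by simp only [cond_true]; omega, fun h3 => ?_⟩
    have h4 := (h3 0 (by omega)).1 (h2.1 rfl)
    exact absurd h4 (by simp)

theorem ngate_of_both {A : Set (List Bool)} (hA : InNP A) (hA' : InNP Aᶜ) :
    NPolynomialGate 1 A := by
  classical
  obtain ⟨D, p, hD, hD1, hD2⟩ := decider_of_both hA hA'
  refine ⟨fun z => (D (unpair z)).elim none fun t => some (bif t then [1] else [0]), p,
    polyTime_bits ((NPC.Poly.optCases (o := fun z : List Bool => D (unpair z))
      (g := fun _ => (none : Option (List ℤ)))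
      (h := fun _ t => some (bif t then [1] else [0])) (hD.comp poly_unpair)
      (NPC.Poly.const none) (NPC.Poly.some (NPC.Poly.cond (NPC.Poly.snd NPC.Poly.id)
        (NPC.Poly.const [1]) (NPC.Poly.const [0])))).congr fun z => by
          cases D (unpair z) <;> rfl), fun x => ?_, fun n => ?_⟩
  · obtain ⟨w, t, hw, ht⟩ := hD1 x
    refine ⟨w, hw, ?_⟩
    simp [unpair_pairBits, ht]
  · refine ⟨MvPolynomial.X 0, by rw [MvPolynomial.totalDegree_X], fun x w v _ _ hv => ?_⟩
    simp only [unpair_pairBits] at hv
    cases hDv : D (x, w) with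
    | none => rw [hDv] at hv; exact absurd hv (by simp)
    | some t =>
      rw [hDv] at hv
      simp only [Option.elim, Option.some.injEq] at hv
      subst hv
      rw [MvPolynomial.eval_X, ← hD2 x w t hDv]
      cases t <;> simp

/-! ### Threshold gates -/

/-- The vectors computed by the nondeterministic algorithm. -/
def vls (f : List Bool → Option (List ℤ)) (p : Polynomial ℕ) (z : List Bool) :
    List (Option (List ℤ)) :=
  ((dl (unpair z).1).zip (dl (unpair z).2)).map fun q =>
    bif decide (q.2.length ≤ p.eval q.1.length) then f (pairBits q.1 q.2) else none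

/-- The excluded label. -/
def yg (f : List Bool → Option (List ℤ)) (p : Polynomial ℕ) (k : ℕ) (z : List Bool) : Option ℕ :=
  bif decide ((dl (unpair z).1).length = (dl (unpair z).2).length) &&
    (vls f p z).all Option.isSome then
      some (exclF ((vls f p z).map fun o => ftv k (o.getD []))) else none

theorem yg_poly {f : List Bool → Option (List ℤ)} (hf : Poly f) (p : Polynomial ℕ) (k : ℕ) :
    Poly (yg f p k) := by
  have e1 : Poly (fun z : List Bool => dl (unpair z).1) := dl_poly.comp (NPC.Poly.fst poly_unpair)
  have e2 : Poly (fun z : List Bool => dl (unpair z).2) := dl_poly.comp (NPC.Poly.snd poly_unpair)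
  have f1 : Poly (fun q : List Bool × (List Bool × List Bool) => q.2.1) :=
    NPC.Poly.fst (NPC.Poly.snd NPC.Poly.id)
  have f2 : Poly (fun q : List Bool × (List Bool × List Bool) => q.2.2) :=
    NPC.Poly.snd (NPC.Poly.snd NPC.Poly.id)
  have hv : Poly (vls f p) :=
    NPC.Poly.map (l := fun z : List Bool => (dl (unpair z).1).zip (dl (unpair z).2))
      (F := fun _ q => bif decide (q.2.length ≤ p.eval q.1.length) then f (pairBits q.1 q.2)
        else none) (NPC.Poly.zip e1 e2)
      (NPC.Poly.cond (NPC.Poly.decide_le (NPC.Poly.length f2) ((UPoly.length f1).eval p).toPoly)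
        (hf.comp (H622R2.poly_pairBits f1 f2)) (NPC.Poly.const none))
  unfold yg
  refine NPC.Poly.cond (NPC.Poly.and (NPC.Poly.decide_eq (NPC.Poly.length e1)
    (NPC.Poly.length e2)) ?_) (NPC.Poly.some (exclF_poly ?_)) (NPC.Poly.const none)
  · exact NPC.Poly.all (l := vls f p) (p := fun _ o => o.isSome) hv
      (isSome_poly (NPC.Poly.snd NPC.Poly.id))
  · exact NPC.Poly.map (l := vls f p) (F := fun _ o => ftv k (o.getD [])) hv
      (ftv_poly k (NPC.Poly.optGetD (NPC.Poly.snd NPC.Poly.id) (NPC.Poly.const [])))

/-- The rows of the Hadamard matrices. -/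
def Lpar : Set (List Bool) := lang (fun q : ℕ × (ℕ × ℕ) => par q.2.1 q.2.2 = true)

theorem lpar_inP : InP Lpar :=
  inPP_of (d := fun q : ℕ × (ℕ × ℕ) => par q.2.1 q.2.2)
    (par_poly (NPC.Poly.fst (NPC.Poly.snd NPC.Poly.id))
      (NPC.Poly.snd (NPC.Poly.snd NPC.Poly.id))) (fun q => by simp)

theorem vec_lpar (m l : ℕ) : vec Lpar m l = (List.range m).map (fun i => par l i) := by
  classical
  unfold vec
  refine List.map_congr_left fun i _ => ?_
  have h1 : bits (m, (l, i)) ∈ Lpar ↔ par l i = true := bits_mem_lang
  cases h : par l i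
  · exact decide_eq_false (by rw [h1, h]; simp)
  · exact decide_eq_true (by rw [h1, h])

theorem two_pow_size_le {m : ℕ} (h4 : 0 < m) : 2 ^ m.size ≤ 2 * m := by
  have h5 := Nat.size_pos.2 h4
  have h6 : 2 ^ (m.size - 1) ≤ m := by
    rw [← Nat.lt_size]
    omega
  have h7 : 2 ^ m.size = 2 * 2 ^ (m.size - 1) := by
    rw [← pow_succ']
    congr 1
    omega
  omega

/-- **A nondeterministic gate excludes a vector.** -/
theorem nfeasible_of_gate {A : Set (List Bool)} {k : ℕ} (h : NPolynomialGate k A) :
    NFeasible (Exclude Lpar A) := by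
  classical
  obtain ⟨f, p, hf, htot, hgate⟩ := h
  have hfp : Poly f := poly_of_polyTime hf
  choose u hu1 hu2 using htot
  -- the dimension
  have hg : Poly (fun q : List Bool × List Bool => ftv k ((f (pairBits q.1 q.2)).getD [])) :=
    ftv_poly k (NPC.Poly.optGetD (hfp.comp (H622R2.poly_pairBits (NPC.Poly.fst NPC.Poly.id)
      (NPC.Poly.snd NPC.Poly.id))) (NPC.Poly.const []))
  obtain ⟨q0, hq0⟩ := hg.sz_le
  set R : Polynomial ℕ := Polynomial.C 4 * Polynomial.X + Polynomial.C 4 * p + 4 with hR
  set D : Polynomial ℕ := q0.comp R with hD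
  have hdim : ∀ n y w : _, (y : List Bool).length ≤ n → (w : List Bool).length ≤ p.eval y.length →
      (ftv k ((f (pairBits y w)).getD [])).length ≤ D.eval n := by
    intro n y w hy hw
    have h1 := hq0 (y, w)
    have h2 := length_lt_sz (ftv k ((f (pairBits y w)).getD []))
    have h3 : sz (y, w) ≤ R.eval n := by
      rw [sz_pair, hR]
      have h4 := sz_listBool_le y
      have h5 := sz_listBool_le w
      have h6 := eval_mono p hy
      simp only [Polynomial.eval_add, Polynomial.eval_mul, Polynomial.eval_C, Polynomial.eval_X,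
        Polynomial.eval_ofNat]
      omega
    have h4 := eval_mono q0 h3
    rw [hD, Polynomial.eval_comp]
    simp only at h1
    omega
  obtain ⟨b, hb⟩ := exists_pow_add_bound (Polynomial.C 17 * (D + 1) ^ 2)
  obtain ⟨c, hc⟩ := exists_pow_add_bound (Polynomial.C 2 * (Polynomial.X ^ b + Polynomial.C b))
  have hbe : ∀ n, 17 * (D.eval n + 1) ^ 2 ≤ n ^ b + b := fun n => by
    have := hb n
    simpa using this
  have hce : ∀ n, 2 * (n ^ b + b) ≤ n ^ c + c := fun n => by
    have := hc n
    simpa using this
  refine ⟨yg f p k, Polynomial.X * (Polynomial.C 4 * p + 2) + 1, b, c,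
    polyTime_bits (yg_poly hfp p k), fun n qs hqs hlen => ⟨?_, ?_⟩⟩
  · -- totality
    have hz : ∀ y ∈ qs, y.length ≤ (bits qs).length := fun y hy => by
      have e1 := sz_le_of_mem hy
      have e2 := length_lt_sz y
      have e3 := bits_length qs
      omega
    have hz2 : qs.length ≤ (bits qs).length := by
      have e1 := length_lt_sz qs
      have e3 := bits_length qs
      omega
    have hv : vls f p (pairBits (bits qs) (bits (qs.map u))) =
        qs.map fun y => f (pairBits y (u y)) := by
      unfold vls
      simp only [unpair_pairBits, dl_bits]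
      clear hqs hlen hz hz2
      induction qs with
      | nil => rfl
      | cons y qs ih =>
        rw [List.map_cons, List.zip_cons_cons, List.map_cons, List.map_cons, ih]
        congr 1
        rw [decide_eq_true (hu1 y), cond_true]
    refine ⟨exclF ((qs.map fun y => f (pairBits y (u y))).map fun o => ftv k (o.getD [])),
      bits (qs.map u), ?_, ?_⟩
    · rw [bits_length]
      have h1 := sz_le_length_mul (qs.map u) (4 * p.eval (bits qs).length + 1) (fun v hv => by
        obtain ⟨y, hy, rfl⟩ := List.mem_map.1 hv
        have h2 := sz_listBool_le (u y)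
        have h3 := hu1 y
        have h4 := eval_mono p (hz y hy)
        omega)
      rw [List.length_map] at h1
      simp only [Polynomial.eval_add, Polynomial.eval_mul, Polynomial.eval_C, Polynomial.eval_X,
        Polynomial.eval_ofNat, Polynomial.eval_one]
      have h2 : qs.length * (4 * p.eval (bits qs).length + 1 + 1) ≤
          (bits qs).length * (4 * p.eval (bits qs).length + 2) := Nat.mul_le_mul_right _ hz2
      omega
    · unfold yg
      rw [hv]
      simp only [unpair_pairBits, dl_bits, List.length_map, decide_true, Bool.true_and]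
      have h1 : (qs.map fun y => f (pairBits y (u y))).all Option.isSome = true := by
        rw [List.all_eq_true]
        intro o ho
        obtain ⟨y, _, rfl⟩ := List.mem_map.1 ho
        exact Option.isSome_iff_ne_none.2 (hu2 y)
      rw [h1, cond_true]
  · -- soundness
    rintro l ⟨w, -, hl⟩
    unfold yg at hl
    rw [unpair_pairBits] at hl
    simp only [dl_bits] at hl
    set vs := vls f p (pairBits (bits qs) w) with hvs
    cases hb1 : (decide (qs.length = (dl w).length) && vs.all Option.isSome)
    · rw [hb1, cond_false] at hl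
      exact absurd hl (by simp)
    · rw [hb1, cond_true] at hl
      rw [Bool.and_eq_true, decide_eq_true_eq, List.all_eq_true] at hb1
      obtain ⟨hwl, hall⟩ := hb1
      have hl' := Option.some.inj hl
      set F := vs.map fun o => ftv k (o.getD []) with hF
      have hvl : vs.length = qs.length := by
        rw [hvs]
        unfold vls
        simp only [unpair_pairBits, dl_bits, List.length_map, List.length_zip]
        omega
      have hFl : F.length = qs.length := by rw [hF, List.length_map, hvl]
      have hent : ∀ t (ht : t < qs.length), ∃ v : List ℤ,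
          ((dl w)[t]'(by omega)).length ≤ p.eval qs[t].length ∧
          f (pairBits qs[t] ((dl w)[t]'(by omega))) = some v ∧ F.getD t [] = ftv k v := by
        intro t ht
        have h1 : vs[t]'(by omega) =
            bif decide (((dl w)[t]'(by omega)).length ≤ p.eval qs[t].length) then
              f (pairBits qs[t] ((dl w)[t]'(by omega))) else none := by
          have h0 : vs = (qs.zip (dl w)).map fun q =>
              bif decide (q.2.length ≤ p.eval q.1.length) then f (pairBits q.1 q.2) else none := by
            rw [hvs]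
            unfold vls
            simp only [unpair_pairBits, dl_bits]
          simp only [h0, List.getElem_map, List.getElem_zip]
        have h2 := hall _ (List.getElem_mem (show t < vs.length by omega))
        obtain ⟨v, hv⟩ := Option.isSome_iff_exists.1 h2
        rw [h1] at hv
        by_cases hw : ((dl w)[t]'(by omega)).length ≤ p.eval qs[t].length
        · rw [decide_eq_true hw, cond_true] at hv
          refine ⟨v, hw, hv, ?_⟩
          rw [List.getD_eq_getElem _ _ (by omega)]
          simp only [hF, List.getElem_map, h1]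
          rw [decide_eq_true hw, cond_true, hv]
          rfl
        · rw [decide_eq_false hw, cond_false] at hv
          exact absurd hv (by simp)
      have hdF : dimF F ≤ D.eval n + 1 := by
        refine dimF_le _ fun r hr => ?_
        obtain ⟨t, ht, rfl⟩ := List.getElem_of_mem hr
        have ht' : t < qs.length := by omega
        obtain ⟨v, h1, h2, h3⟩ := hent t ht'
        rw [List.getD_eq_getElem _ _ ht] at h3
        rw [h3]
        have h4 := hdim n qs[t] ((dl w)[t]'(by omega)) (hlen _ (List.getElem_mem ht')) h1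
        rw [h2] at h4
        exact h4
      have hbig : 16 * dimF F ^ 2 < F.length := by
        rw [hFl, hqs]
        have h1 : dimF F ^ 2 ≤ (D.eval n + 1) ^ 2 := Nat.pow_le_pow_left hdF 2
        have h2 : 0 < (D.eval n + 1) ^ 2 := pow_pos (Nat.succ_pos _) 2
        have h3 := hbe n
        omega
      obtain ⟨h1, h2⟩ := exclF_spec F hbig
      rw [hl'] at h1 h2
      refine ⟨?_, fun hcon => ?_⟩
      · have h4 : 0 < F.length := by omega
        have h7 := two_pow_size_le h4
        have h8 := hce n
        rw [← hqs, ← hFl] at h8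
        exact (h1.le.trans h7).trans h8
      · obtain ⟨P, hP, hPA⟩ := hgate n
        obtain ⟨w0, hw0⟩ := eval_eq_linear k P (hP.trans Nat.lt_two_pow_self.le)
        refine h2 w0 0 fun t ht => ?_
        rw [hFl] at ht
        obtain ⟨v, h3, h4, h5⟩ := hent t ht
        rw [h5, ← hw0 v]
        have h6 := hPA qs[t] _ v (hlen _ (List.getElem_mem ht)) h3 h4
        rw [← h6]
        rw [vec_lpar] at hcon
        have h7 : (answers A qs)[t]? = ((List.range qs.length).map fun i => par l i)[t]? := by
          rw [hcon]
        unfold answers at h7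
        rw [List.getElem?_map, List.getElem?_map, List.getElem?_eq_getElem ht,
          List.getElem?_range ht] at h7
        simp only [Option.map_some, Option.some.injEq] at h7
        rw [← h7, decide_eq_true_iff]

/-- **`NP = coNP`, nondeterministic exclusion and threshold gates.** -/
theorem conp_tfae : List.TFAE
    [∀ S : Set (List Bool), InNP S → InNP Sᶜ,
      ∃ A L : Set (List Bool), NPHard A ∧ InP L ∧ NFeasible (Exclude L A),
      ∃ A : Set (List Bool), NPHard A ∧ NFeasible (ExcludeCount A),
      ∃ A : Set (List Bool), NPHard A ∧ NFeasible (NotOnly A),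
      ∀ A : Set (List Bool), InNP A → NFeasible (ExcludeCount A) ∧ NFeasible (NotOnly A),
      ∃ (A : Set (List Bool)) (k : ℕ), NPHard A ∧ NPolynomialGate k A,
      ∀ A : Set (List Bool), InNP A → NPolynomialGate 1 A] := by
  tfae_have 1 → 5 := fun h A hA =>
    ⟨nfeasible_count hA (h A hA), nfeasible_notOnly hA (h A hA)⟩
  tfae_have 5 → 3 := fun h => by
    obtain ⟨h1, h2⟩ := Pool.Agent.NPC.H545KS.sat_complete
    exact ⟨_, h2, (h _ h1).1⟩
  tfae_have 5 → 4 := fun h => by
    obtain ⟨h1, h2⟩ := Pool.Agent.NPC.H545KS.sat_complete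
    exact ⟨_, h2, (h _ h1).2⟩
  tfae_have 3 → 2 := fun ⟨A, hA, h⟩ => ⟨A, Lthr, hA, lthr_inP, h.mono exclude_of_count⟩
  tfae_have 4 → 2 := fun ⟨A, hA, h⟩ => ⟨A, Lunit, hA, lunit_inP, h.mono exclude_of_notOnly⟩
  tfae_have 2 → 1 := fun ⟨A, L, hA, hL, h⟩ S hS => compl_of_nfeasible hA hL h hS
  tfae_have 1 → 7 := fun h A hA => ngate_of_both hA (h A hA)
  tfae_have 7 → 6 := fun h => by
    obtain ⟨h1, h2⟩ := Pool.Agent.NPC.H545KS.sat_complete
    exact ⟨_, 1, h2, h _ h1⟩
  tfae_have 6 → 2 := fun ⟨A, k, hA, h⟩ => ⟨A, Lpar, hA, lpar_inP, nfeasible_of_gate h⟩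
  tfae_finish

end Pool.Agent.TH684.CX
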