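import Pool.Agent.TH684.CX.ParG
import Pool.Agent.W920.NL.CoreR

/-!
# The core theorems, with and without witnesses: general form
-/

set_option autoImplicit false

namespace Pool.Agent.TH684.CX

open Pool.Agent.NPC Pool.Agent.H251R5.PQ
open Pool.Agent.W920.LN (Tb lk lk_map)
open Pool.Agent.W920.NL

/-- **The core theorem.** -/
theorem core_G {W : Rd} (hW : NPC.Poly W) {Snd : List (List Bool) → (List Bool → Prop) → Prop}
    (hmono : ∀ θ X X', Snd θ X' → (∀ z, X z → X' z) → Snd θ X) (hAp : Approx W Snd)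
    (L : Set (List Bool)) (hL : InNP L) (p0 : Polynomial ℕ) :
    ∃ (V : List Bool × (List (List Bool) × List Tb) → Bool) (Nk q : Polynomial ℕ), NPC.Poly V ∧
      (∀ x θ, Snd θ (fun z => z.length ≤ Nk.eval x.length) → x ∈ L →
        ∀ tbs, V (x, (θ, tbs)) = false) ∧
      (∀ x θ, (∀ z : List Bool, z.length ≤ Nk.eval x.length → ∃ w : List Bool,
        w.length ≤ p0.eval z.length ∧ (W (θ, (z, w))).isSome = true) → x ∉ L →
        ∃ tbs : List Tb, sz tbs ≤ q.eval x.length ∧ V (x, (θ, tbs)) = true) := by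
  obtain ⟨Dv, hDv⟩ := t_PAD L hL
  obtain ⟨F, Ks, r, hF, hKs, hr, hans⟩ :=
    parallel_G hmono hAp (lang (Qry Dv)) (c_NPQ Dv)
  obtain ⟨S, hS⟩ := good_size
  obtain ⟨pq, hpq⟩ := (c_PQL Dv).sz_le
  obtain ⟨pK, hpK⟩ := hKs.sz_le
  obtain ⟨u1, hu1⟩ := t_LG (r.comp (pq.comp S))
  set u0 : ℕ := max 2 u1 with hu0
  have hsz : ∀ x i s, i ≤ par Dv u0 x ^ 3 + 1 → Good x (par Dv u0 x) i s →
      sz (qlist Dv s) ≤ (pq.comp S).eval (par Dv u0 x) := by
    intro x i s hi hg
    have h1 := hS x _ i s (by unfold par; omega) (by unfold par; omega) hi hg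
    rw [Polynomial.eval_comp]
    exact (hpq s).trans (eval_mono pq h1)
  have hlen : ∀ x tc i s, i ≤ par Dv u0 x ^ 3 + 1 → Good x (par Dv u0 x) i s →
      32 * (Nat.log 2 (F (tc, qlist Dv s)).length + 1) ≤ par Dv u0 x := by
    intro x tc i s hi hg
    have h1 := hsz x i s hi hg
    have h2 := (hr tc (qlist Dv s)).trans (eval_mono r h1)
    rw [← Polynomial.eval_comp] at h2
    exact le_trans (Nat.mul_le_mul_left _ (Nat.succ_le_succ (Nat.log_mono_right h2)))
      (hu1 _ (by unfold par; omega))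
  have hpar := pac_par Dv u0
  obtain ⟨pp, hpp⟩ := Pool.Agent.W920.LN.upoly_bound hpar
  set M : Polynomial ℕ := (pK.comp (pq.comp S)).comp pp with hM
  have hKsz : ∀ x i s, i ≤ par Dv u0 x ^ 3 + 1 → Good x (par Dv u0 x) i s →
      sz (Ks (qlist Dv s)) ≤ M.eval x.length := by
    intro x i s hi hg
    have h1 := (hpK (qlist Dv s)).trans (eval_mono pK (hsz x i s hi hg))
    rw [← Polynomial.eval_comp] at h1
    rw [hM, Polynomial.eval_comp]
    exact h1.trans (eval_mono _ (hpp x))
  refine ⟨vrf Dv F Ks W u0, M, (pp ^ 3 + 1) * (M * (M + Polynomial.C 4 * p0.comp M + 3) + 2) + 1,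
    vrf_poly Dv hF hKs hW u0 (by omega) hlen, ?_, ?_⟩
  · intro x θ hs hx tbs
    by_contra hcon
    rw [Bool.not_eq_false] at hcon
    unfold vrf at hcon
    rw [Bool.and_eq_true, decide_eq_true_eq] at hcon
    simp only at hcon
    obtain ⟨h1, h2⟩ := hcon
    rw [← h1, List.take_length, foldl_stp, Bool.true_and] at h2
    obtain ⟨w0, hw1, hw2⟩ := (hDv x).1 hx
    have h3 := ok_sound (D := Dv) (F := F) (Ks := Ks) (W := W) (x := x) (u := par Dv u0 x)
      (by unfold par; omega) (by unfold par; omega) θ (hlen x) (fun tb i s hi hg hv =>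
        hans (θ, tb) (qlist Dv s) hv (hmono _ _ _ hs fun z hz => by
          have e1 := sz_le_of_mem hz
          have e2 := length_lt_sz z
          have e3 := hKsz x i s hi hg
          omega)) tbs 0 (ini Dv u0 x) (good_ini Dv u0 x) ⟨w0, hw1, hw2, rfl⟩
      (by rintro rfl; simp at h1) (by omega)
    rw [h2] at h3
    exact Bool.false_ne_true h3.symm
  · intro x θ htot hx
    have hno : ∀ w : List Bool, w.length = Dv.n x → Dv.V x w = false := by
      intro w hw
      by_contra hcon
      rw [Bool.not_eq_false] at hcon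
      exact hx ((hDv x).2 ⟨w, hw, hcon⟩)
    set m : ℕ := M.eval x.length with hm
    obtain ⟨tbs, h1, h2, h3⟩ := ok_complete (D := Dv) (F := F) (Ks := Ks) (W := W) (x := x)
      (u := par Dv u0 x) (by unfold par; omega) (by unfold par; omega) θ (hlen x) hno
      (m * (m + 4 * p0.eval m + 3) + 1) (fun i s hi hg =>
        table_of_tot htot (Ks (qlist Dv s)) m (hKsz x i s hi hg) le_rfl)
      (par Dv u0 x ^ 3 + 1) 0 (ini Dv u0 x) (good_ini Dv u0 x) (by omega)
    refine ⟨tbs, ?_, ?_⟩
    · refine (sz_le_length_mul tbs _ h2).trans ?_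
      rw [h1]
      simp only [Polynomial.eval_add, Polynomial.eval_mul, Polynomial.eval_pow,
        Polynomial.eval_one, Polynomial.eval_comp, Polynomial.eval_C, Polynomial.eval_ofNat]
      rw [← hm]
      have h4 : par Dv u0 x ^ 3 ≤ (pp.eval x.length) ^ 3 := Nat.pow_le_pow_left (hpp x) 3
      exact Nat.add_le_add_right (Nat.mul_le_mul (by omega) le_rfl) 1
    · unfold vrf
      simp only
      rw [h1, decide_eq_true rfl, Bool.true_and, ← h1, List.take_length, foldl_stp, h3]
      rfl


/-- **The core theorem for readers which need no witnesses.** There is a polynomial-time search `V`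
with a parameter: if the parameter is good then it finds a witness of every member, and it never
accepts nonmembers. -/
theorem core_detG {W : Rd} (hW : NPC.Poly W)
    {Snd : List (List Bool) → (List Bool → Prop) → Prop}
    (hmono : ∀ θ X X', Snd θ X' → (∀ z, X z → X' z) → Snd θ X) (hAp : Approx W Snd)
    (L : Set (List Bool)) (hL : InNP L) :
    ∃ (V : List Bool × List (List Bool) → Bool) (Nk : Polynomial ℕ), NPC.Poly V ∧
      (∀ x θ, Snd θ (fun z => z.length ≤ Nk.eval x.length) → x ∈ L →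
        V (x, θ) = true) ∧
      (∀ x θ, (∀ z : List Bool, z.length ≤ Nk.eval x.length →
        (W (θ, (z, []))).isSome = true) → x ∉ L → V (x, θ) = false) := by
  obtain ⟨Dv, hDv⟩ := t_PAD L hL
  obtain ⟨F, Ks, r, hF, hKs, hr, hans⟩ :=
    parallel_G hmono hAp (lang (Qry Dv)) (c_NPQ Dv)
  obtain ⟨S, hS⟩ := good_size
  obtain ⟨pq, hpq⟩ := (c_PQL Dv).sz_le
  obtain ⟨pK, hpK⟩ := hKs.sz_le
  obtain ⟨u1, hu1⟩ := t_LG (r.comp (pq.comp S))
  set u0 : ℕ := max 2 u1 with hu0
  have hsz : ∀ x i s, i ≤ par Dv u0 x ^ 3 + 1 → Good x (par Dv u0 x) i s →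
      sz (qlist Dv s) ≤ (pq.comp S).eval (par Dv u0 x) := by
    intro x i s hi hg
    have h1 := hS x _ i s (by unfold par; omega) (by unfold par; omega) hi hg
    rw [Polynomial.eval_comp]
    exact (hpq s).trans (eval_mono pq h1)
  have hlen : ∀ x tc i s, i ≤ par Dv u0 x ^ 3 + 1 → Good x (par Dv u0 x) i s →
      32 * (Nat.log 2 (F (tc, qlist Dv s)).length + 1) ≤ par Dv u0 x := by
    intro x tc i s hi hg
    have h1 := hsz x i s hi hg
    have h2 := (hr tc (qlist Dv s)).trans (eval_mono r h1)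
    rw [← Polynomial.eval_comp] at h2
    exact le_trans (Nat.mul_le_mul_left _ (Nat.succ_le_succ (Nat.log_mono_right h2)))
      (hu1 _ (by unfold par; omega))
  have hpar := pac_par Dv u0
  obtain ⟨pp, hpp⟩ := Pool.Agent.W920.LN.upoly_bound hpar
  set M : Polynomial ℕ := (pK.comp (pq.comp S)).comp pp with hM
  have hKsz : ∀ x i s, i ≤ par Dv u0 x ^ 3 + 1 → Good x (par Dv u0 x) i s →
      sz (Ks (qlist Dv s)) ≤ M.eval x.length := by
    intro x i s hi hg
    have h1 := (hpK (qlist Dv s)).trans (eval_mono pK (hsz x i s hi hg))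
    rw [← Polynomial.eval_comp] at h1
    rw [hM, Polynomial.eval_comp]
    exact h1.trans (eval_mono _ (hpp x))
  have hKz : ∀ x i s, i ≤ par Dv u0 x ^ 3 + 1 → Good x (par Dv u0 x) i s →
      ∀ z ∈ Ks (qlist Dv s), z.length ≤ M.eval x.length := by
    intro x i s hi hg z hz
    have e1 := sz_le_of_mem hz
    have e2 := length_lt_sz z
    have e3 := hKsz x i s hi hg
    omega
  have hV := vrf_poly Dv hF hKs hW u0 (by omega) hlen
  have hnum : UPoly (fun x => par Dv u0 x ^ 3 + 1) := by
    have := UPoly.eval hpar (Polynomial.X ^ 3 + 1)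
    simpa only [Polynomial.eval_add, Polynomial.eval_pow, Polynomial.eval_X,
      Polynomial.eval_one] using this
  have e1 : NPC.Poly (fun q : List Bool × List (List Bool) => q.1) := NPC.Poly.fst NPC.Poly.id
  have hrep : NPC.Poly (fun q : List Bool × List (List Bool) =>
      List.replicate (par Dv u0 q.1 ^ 3 + 1) ([] : Tb)) := by
    refine (NPC.Poly.map (l := fun q : List Bool × List (List Bool) =>
      List.range (par Dv u0 q.1 ^ 3 + 1)) (F := fun _ _ => ([] : Tb)) (hnum.comp e1).range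
      (NPC.Poly.const [])).congr fun q => ?_
    rw [List.map_const', List.length_range]
  refine ⟨fun q => !(vrf Dv F Ks W u0 (q.1, (q.2,
    List.replicate (par Dv u0 q.1 ^ 3 + 1) ([] : Tb)))), M, ?_, ?_, ?_⟩
  · exact NPC.Poly.not (hV.comp (NPC.Poly.pair e1 (NPC.Poly.pair (NPC.Poly.snd NPC.Poly.id) hrep)))
  · intro x θ hs hx
    simp only
    rw [Bool.not_eq_true']
    by_contra hcon
    rw [Bool.not_eq_false] at hcon
    set tbs : List Tb := List.replicate (par Dv u0 x ^ 3 + 1) ([] : Tb) with htbs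
    unfold vrf at hcon
    rw [Bool.and_eq_true, decide_eq_true_eq] at hcon
    simp only at hcon
    obtain ⟨h1, h2⟩ := hcon
    rw [← h1, List.take_length, foldl_stp, Bool.true_and] at h2
    obtain ⟨w0, hw1, hw2⟩ := (hDv x).1 hx
    have h3 := ok_sound (D := Dv) (F := F) (Ks := Ks) (W := W) (x := x) (u := par Dv u0 x)
      (by unfold par; omega) (by unfold par; omega) θ (hlen x) (fun tb i s hi hg hv =>
        hans (θ, tb) (qlist Dv s) hv (hmono _ _ _ hs fun z hz => hKz x i s hi hg z hz))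
      tbs 0 (ini Dv u0 x) (good_ini Dv u0 x) ⟨w0, hw1, hw2, rfl⟩
      (by intro h; rw [h] at h1; simp at h1) (by omega)
    rw [h2] at h3
    exact Bool.false_ne_true h3.symm
  · intro x θ htot hx
    have hno : ∀ w : List Bool, w.length = Dv.n x → Dv.V x w = false := by
      intro w hw
      by_contra hcon
      rw [Bool.not_eq_false] at hcon
      exact hx ((hDv x).2 ⟨w, hw, hcon⟩)
    have h3 := ok_complete_nil (D := Dv) (F := F) (Ks := Ks) (W := W) (x := x)
      (u := par Dv u0 x) (by unfold par; omega) (by unfold par; omega) θ (hlen x) hno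
      (fun i s hi hg z hz => by
        unfold valid go
        rw [lk_nil]
        exact htot z (hKz x i s hi hg z hz))
      (par Dv u0 x ^ 3 + 1) 0 (ini Dv u0 x) (good_ini Dv u0 x) (by omega)
    simp only
    rw [Bool.not_eq_false']
    unfold vrf
    simp only
    have h1 : (List.replicate (par Dv u0 x ^ 3 + 1) ([] : Tb)).length = par Dv u0 x ^ 3 + 1 :=
      List.length_replicate
    rw [h1, decide_eq_true rfl, Bool.true_and]
    have h4 : (List.replicate (par Dv u0 x ^ 3 + 1) ([] : Tb)).take (par Dv u0 x ^ 3 + 1) =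
        List.replicate (par Dv u0 x ^ 3 + 1) ([] : Tb) := by
      rw [List.take_replicate, min_self]
    rw [h4, foldl_stp, h3]
    rfl

end Pool.Agent.TH684.CX
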