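import Pool.Agent.TH684.EX.Defs
import Mathlib

/-!
# Exclusion and threshold gates: nondeterministic algorithms, definitions

Polynomial time is Mathlib's `Turing.TM2ComputableInPolyTime` (through `Pool.Agent.NPC.PolyTime`).
-/

set_option autoImplicit false

namespace Pool.Agent.TH684.CX

open Pool.Agent.NPC Pool.Agent.H251R5.PQ

/-- The number `l` is an output, on the input `z`, of the nondeterministic algorithm which guesses a
string `w` of length at most `p |z|` and then outputs `l` if `Y (z, w) = some l`, and nothing if
`Y (z, w) = none`. -/
def NOut (Y : List Bool → Option ℕ) (p : Polynomial ℕ) (z : List Bool) (l : ℕ) : Prop :=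
  ∃ w : List Bool, w.length ≤ p.eval z.length ∧ Y (pairBits z w) = some l

/-- Some nondeterministic polynomial-time algorithm solves the task `T` (which output numbers are
right for which lists of strings) for lists of polynomially many strings: for every `n` and every list
of `n ^ b + b` strings of length at most `n` the algorithm has at least one output, and all its
outputs are right, and at most `n ^ c + c`. -/
def NFeasible (T : List (List Bool) → ℕ → Prop) : Prop :=
  ∃ (Y : List Bool → Option ℕ) (p : Polynomial ℕ) (b c : ℕ), PolyTime (fun z => bits (Y z)) ∧
    ∀ (n : ℕ) (qs : List (List Bool)), qs.length = n ^ b + b → (∀ y ∈ qs, y.length ≤ n) →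
      (∃ l, NOut Y p (bits qs) l) ∧ ∀ l, NOut Y p (bits qs) l → l ≤ n ^ c + c ∧ T qs l

/-- The same with advice strings `a k` of polynomial length, which depend on the length `k` of the
code of the list only. -/
def AFeasible (T : List (List Bool) → ℕ → Prop) : Prop :=
  ∃ (Y : List Bool → Option ℕ) (a : ℕ → List Bool) (r p : Polynomial ℕ) (b c : ℕ),
    PolyTime (fun z => bits (Y z)) ∧ (∀ k, (a k).length ≤ r.eval k) ∧
    ∀ (n : ℕ) (qs : List (List Bool)), qs.length = n ^ b + b → (∀ y ∈ qs, y.length ≤ n) →
      (∃ l, NOut Y p (pairBits (bits qs) (a (bits qs).length)) l) ∧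
      ∀ l, NOut Y p (pairBits (bits qs) (a (bits qs).length)) l → l ≤ n ^ c + c ∧ T qs l

/-- The set `A` is decided by one polynomial threshold gate of degree at most `k` whose inputs are
computed by a nondeterministic polynomial-time algorithm: the algorithm guesses a string `w` of length
at most `p |x|` and outputs an integer vector `v` if `f (x, w) = some v`, and nothing if
`f (x, w) = none`; it has at least one output for every `x`; and for every `n` there is a real
polynomial `P` of degree at most `k` (in any number of variables) such that `x ∈ A ↔ P (v) > 0` for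
all `x` of length at most `n` and all outputs `v` on the input `x`. Variables beyond the length of the
vector get the value `0`; the polynomial may depend on `n` in any way. -/
def NPolynomialGate (k : ℕ) (A : Set (List Bool)) : Prop :=
  ∃ (f : List Bool → Option (List ℤ)) (p : Polynomial ℕ), PolyTime (fun z => bits (f z)) ∧
    (∀ x : List Bool, ∃ w : List Bool, w.length ≤ p.eval x.length ∧ f (pairBits x w) ≠ none) ∧
    ∀ n : ℕ, ∃ P : MvPolynomial ℕ ℝ, P.totalDegree ≤ k ∧ ∀ (x w : List Bool) (v : List ℤ),
      x.length ≤ n → w.length ≤ p.eval x.length → f (pairBits x w) = some v →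
        (x ∈ A ↔ 0 < MvPolynomial.eval (fun j => (v.getD j 0 : ℝ)) P)

end Pool.Agent.TH684.CX
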