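import Pool.Agent.TH684.CX.PolyE

/-!
# Exclusion of one vector with a context: the parameters
-/

set_option autoImplicit false

namespace Pool.Agent.TH684.CX

open Pool.Agent.NPC Pool.Agent.H579R2.Spt Pool.Agent.H251R5.PQ Pool.Agent.W901.AT
open Pool.Agent.W901.FH (hx hx_poly pow_polyc pow_upolyc)
open Pool.Agent.TH684.EX (Qu ses ses_poly)

/-- The depth of the search. -/
def nE (pp : Polynomial ℕ) (x : List Bool) : ℕ := pp.eval x.length + 1

/-- The base of the bounds. -/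
def BE (pp : Polynomial ℕ) (e1 b : ℕ) (x : List Bool) : ℕ :=
  x.length + nE pp x + (4 * (e1 * b) + 4 * b + 20)

/-- The bound on the length of the questions. -/
def NE (pp : Polynomial ℕ) (e1 b : ℕ) (x : List Bool) : ℕ := (BE pp e1 b x) ^ e1

/-- The bound on the number of the questions, and the labels. -/
def ME (pp : Polynomial ℕ) (e1 b : ℕ) (x : List Bool) : ℕ := (NE pp e1 b x) ^ b + b

/-- The bound for the prime number. -/
def QE (pp : Polynomial ℕ) (e1 b : ℕ) (x : List Bool) : ℕ :=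
  nE pp x * (2 * (ME pp e1 b x + 1) ^ 2 + 1) ^ 2

/-- The size of the field. -/
noncomputable def PE (pp : Polynomial ℕ) (e1 b : ℕ) (x : List Bool) : ℕ := prm (QE pp e1 b x)

variable {pp : Polynomial ℕ} {e1 b : ℕ}

theorem nE_poly : UPoly (nE pp) := ((UPoly.length NPC.Poly.id).eval pp).add (UPoly.const 1)

theorem BE_poly : UPoly (BE pp e1 b) :=
  ((UPoly.length NPC.Poly.id).add nE_poly).add (UPoly.const _)

theorem NE_poly : UPoly (NE pp e1 b) := pow_upolyc BE_poly e1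

theorem ME_poly : UPoly (ME pp e1 b) := (pow_upolyc NE_poly b).add (UPoly.const b)

theorem QE_poly : UPoly (QE pp e1 b) := nE_poly.mul (pow_upolyc (((UPoly.const 2).mul
  (pow_upolyc (ME_poly.add (UPoly.const 1)) 2)).add (UPoly.const 1)) 2)

theorem PE_poly : UPoly (PE pp e1 b) := prm_poly QE_poly

theorem QE_ne (x : List Bool) : QE pp e1 b x ≠ 0 := by
  have : 0 < QE pp e1 b x := by
    simp only [QE, nE]
    positivity
  omega

theorem PE_prime (x : List Bool) : (PE pp e1 b x).Prime := (prm_spec (QE_ne x)).1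

theorem PE_pos (x : List Bool) : 1 ≤ PE pp e1 b x := (PE_prime x).pos

/-- The size of the input of the question function. -/
noncomputable def p3 : Polynomial ℕ := Polynomial.C 100 * Polynomial.X ^ 4 + 100

theorem PE_le (x : List Bool) : PE pp e1 b x ≤ 2 ^ (BE pp e1 b x * BE pp e1 b x) ∧
    ME pp e1 b x + 1 ≤ PE pp e1 b x ∧ 20 ≤ BE pp e1 b x := by
  obtain ⟨hPp, hPb1, hPb2⟩ := prm_spec (QE_ne (pp := pp) (e1 := e1) (b := b) x)
  change QE pp e1 b x < PE pp e1 b x at hPb1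
  change PE pp e1 b x ≤ 2 * QE pp e1 b x at hPb2
  set P : ℕ := PE pp e1 b x with hPdef
  set C : ℕ := 4 * (e1 * b) + 4 * b + 20 with hC
  have hCx : C ≤ BE pp e1 b x := Nat.le_add_left _ _
  have hnb : nE pp x ≤ BE pp e1 b x := by simp only [BE]; omega
  have hb2 : 20 ≤ BE pp e1 b x := by omega
  have hN2 : NE pp e1 b x ≤ 2 ^ (BE pp e1 b x * e1) := by
    have h1 : BE pp e1 b x < 2 ^ BE pp e1 b x := Nat.lt_two_pow_self
    calc NE pp e1 b x = (BE pp e1 b x) ^ e1 := rfl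
      _ ≤ (2 ^ BE pp e1 b x) ^ e1 := Nat.pow_le_pow_left h1.le _
      _ = _ := by rw [← pow_mul]
  have hM2 : ME pp e1 b x + 1 ≤ 2 ^ (BE pp e1 b x * (e1 * b) + b + 2) := by
    have h1 : (NE pp e1 b x) ^ b ≤ 2 ^ (BE pp e1 b x * (e1 * b)) := by
      calc (NE pp e1 b x) ^ b ≤ (2 ^ (BE pp e1 b x * e1)) ^ b := Nat.pow_le_pow_left hN2 _
        _ = _ := by rw [← pow_mul, mul_assoc]
    have h2 : b < 2 ^ b := Nat.lt_two_pow_self
    have h3 : 1 ≤ 2 ^ (BE pp e1 b x * (e1 * b)) := Nat.one_le_two_pow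
    have h4 : 1 ≤ 2 ^ b := Nat.one_le_two_pow
    have h5 : 2 ^ (BE pp e1 b x * (e1 * b) + b + 2) =
        4 * (2 ^ (BE pp e1 b x * (e1 * b)) * 2 ^ b) := by
      rw [pow_add, pow_add]; ring
    have h6 : 2 ^ (BE pp e1 b x * (e1 * b)) ≤ 2 ^ (BE pp e1 b x * (e1 * b)) * 2 ^ b :=
      Nat.le_mul_of_pos_right _ h4
    have h7 : 2 ^ b ≤ 2 ^ (BE pp e1 b x * (e1 * b)) * 2 ^ b := Nat.le_mul_of_pos_left _ h3
    rw [h5]
    simp only [ME]
    omega
  have hQ2 : QE pp e1 b x ≤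
      2 ^ (BE pp e1 b x + 4 * (BE pp e1 b x * (e1 * b) + b + 2) + 4) := by
    have h1 : nE pp x ≤ 2 ^ BE pp e1 b x := hnb.trans Nat.lt_two_pow_self.le
    have h2 : 2 * (ME pp e1 b x + 1) ^ 2 + 1 ≤
        2 ^ (2 * (BE pp e1 b x * (e1 * b) + b + 2) + 2) := by
      set Y := BE pp e1 b x * (e1 * b) + b + 2 with hY
      have h3 : (ME pp e1 b x + 1) ^ 2 ≤ 2 ^ (2 * Y) := by
        calc (ME pp e1 b x + 1) ^ 2 ≤ (2 ^ Y) ^ 2 := Nat.pow_le_pow_left hM2 2
          _ = 2 ^ (2 * Y) := by rw [← pow_mul, mul_comm]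
      have h4 : 1 ≤ 2 ^ (2 * Y) := Nat.one_le_two_pow
      have h5 : 2 ^ (2 * Y + 2) = 4 * 2 ^ (2 * Y) := by rw [pow_add]; ring
      omega
    calc QE pp e1 b x ≤
          2 ^ BE pp e1 b x * (2 ^ (2 * (BE pp e1 b x * (e1 * b) + b + 2) + 2)) ^ 2 :=
          Nat.mul_le_mul h1 (Nat.pow_le_pow_left h2 2)
      _ = 2 ^ (BE pp e1 b x + 4 * (BE pp e1 b x * (e1 * b) + b + 2) + 4) := by
          generalize BE pp e1 b x * (e1 * b) + b + 2 = Y
          have e : BE pp e1 b x + (2 * Y + 2) * 2 = BE pp e1 b x + 4 * Y + 4 := by ring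
          rw [← pow_mul, ← pow_add, e]
  have hexp : BE pp e1 b x + 4 * (BE pp e1 b x * (e1 * b) + b + 2) + 4 + 1 ≤
      BE pp e1 b x * BE pp e1 b x := by
    have h4 : BE pp e1 b x * C ≤ BE pp e1 b x * BE pp e1 b x :=
      Nat.mul_le_mul_left (BE pp e1 b x) hCx
    have h5 : BE pp e1 b x * C = 4 * (BE pp e1 b x * (e1 * b)) + BE pp e1 b x * (4 * b) +
        BE pp e1 b x * 20 := by
      simp only [hC]; ring
    have h6 : 4 * b ≤ BE pp e1 b x * (4 * b) := Nat.le_mul_of_pos_left _ (by omega)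
    omega
  refine ⟨?_, ?_, hb2⟩
  · have h1 : 2 * QE pp e1 b x ≤
        2 ^ (BE pp e1 b x + 4 * (BE pp e1 b x * (e1 * b) + b + 2) + 4 + 1) := by
      rw [pow_succ]; omega
    exact hPb2.trans (h1.trans (Nat.pow_le_pow_right (by norm_num) hexp))
  · set F := ME pp e1 b x + 1 with hF
    have h3 : F ≤ F ^ 2 := Nat.le_self_pow (by norm_num) _
    have h4 : 2 * F ^ 2 + 1 ≤ (2 * F ^ 2 + 1) ^ 2 := Nat.le_self_pow (by norm_num) _
    have h5 : 1 * (2 * F ^ 2 + 1) ^ 2 ≤ nE pp x * (2 * F ^ 2 + 1) ^ 2 :=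
      Nat.mul_le_mul_right _ (by simp only [nE]; omega)
    have h6 : F ≤ 1 * (2 * F ^ 2 + 1) ^ 2 := by
      clear * - h3 h4
      omega
    exact (h6.trans h5).trans hPb1.le

/-- The questions of the sessions are short. -/
theorem ses_len {qf : Qu → List Bool} {p1 : Polynomial ℕ} (hp1 : ∀ q, sz (qf q) ≤ p1.eval (sz q))
    (he1 : ∀ n, 2 ≤ n → (p1.comp p3).eval n ≤ n ^ e1) {x : List Bool} {m j s : ℕ}
    (hm : m ≤ ME pp e1 b x) (hj : j ≤ nE pp x) (hs : s < PE pp e1 b x ^ 3) :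
    ∀ y ∈ ses qf m (PE pp e1 b x) (ME pp e1 b x + 1) x j s, y.length ≤ NE pp e1 b x := by
  obtain ⟨hPsz, hFP, hb2⟩ := PE_le (pp := pp) (e1 := e1) (b := b) x
  set P : ℕ := PE pp e1 b x with hPdef
  set B := BE pp e1 b x with hB
  have hxb : x.length ≤ B := by simp only [hB, BE]; omega
  have hnb : nE pp x ≤ B := by simp only [hB, BE]; omega
  have hP4 : P < 2 ^ (B * B + 1) := by
    rw [pow_succ]
    have := Nat.one_le_two_pow (n := B * B)
    omega
  have hsz : ∀ i < m, sz (x, (m, (P, (ME pp e1 b x + 1, (j, (s, i)))))) ≤ p3.eval B := by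
    intro i hi
    have s1 := sz_listBool_le x
    have hs4 : s < 2 ^ (3 * (B * B)) := by
      calc s < P ^ 3 := hs
        _ ≤ (2 ^ (B * B)) ^ 3 := Nat.pow_le_pow_left hPsz 3
        _ = _ := by rw [← pow_mul, mul_comm]
    have s3 : sz m ≤ 4 * (B * B + 1) + 1 := (sz_nat_le _).trans (by
      have := size_le_of_lt_two_pow (lt_of_le_of_lt (show m ≤ P by omega) hP4); omega)
    have s4 : sz P ≤ 4 * (B * B + 1) + 1 := (sz_nat_le P).trans (by
      have := size_le_of_lt_two_pow hP4; omega)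
    have s4' : sz (ME pp e1 b x + 1) ≤ 4 * (B * B + 1) + 1 := (sz_nat_le _).trans (by
      have := size_le_of_lt_two_pow (lt_of_le_of_lt hFP hP4); omega)
    have s5 : sz j ≤ 4 * B + 1 := (sz_nat_le j).trans (by
      have := NPC.Poly.size_le_self j; omega)
    have s6 : sz s ≤ 4 * (3 * (B * B)) + 1 := (sz_nat_le s).trans (by
      have := size_le_of_lt_two_pow hs4; omega)
    have s7 : sz i ≤ 4 * (B * B + 1) + 1 := (sz_nat_le i).trans (by
      have := size_le_of_lt_two_pow (lt_of_le_of_lt (show i ≤ P by omega) hP4); omega)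
    rw [sz_pair, sz_pair, sz_pair, sz_pair, sz_pair, sz_pair, p3]
    simp only [Polynomial.eval_add, Polynomial.eval_mul, Polynomial.eval_C, Polynomial.eval_X,
      Polynomial.eval_pow, Polynomial.eval_ofNat]
    have h1 : B ≤ B * B := Nat.le_mul_self _
    have h2 : B * B ≤ B ^ 4 := by
      calc B * B = B ^ 2 := by ring
        _ ≤ B ^ 4 := Nat.pow_le_pow_right (by omega) (by norm_num)
    omega
  intro y hy
  obtain ⟨i, hi, rfl⟩ := List.mem_map.1 hy
  have h2 := hsz i (List.mem_range.1 hi)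
  have h3 := (hp1 _).trans (eval_mono p1 h2)
  have h4 := length_lt_sz (qf (x, (m, (P, (ME pp e1 b x + 1, (j, (s, i)))))))
  have h5 := he1 B (by omega)
  rw [Polynomial.eval_comp] at h5
  change _ ≤ B ^ e1
  omega

/-- **The search with a context finds the string.** -/
theorem alc_mem {γ : Type} {A : Set (List Bool)} {lam : ℕ × (ℕ × ℕ) → Bool}
    {X : List (List Bool) × γ → ℕ} {qf : Qu → List Bool} {c : γ} {x w : List Bool} {m : ℕ}
    (hwlen : w.length ≤ pp.eval x.length)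
    (hlab : ∀ P F j s i : ℕ, qf (x, (m, (P, (F, (j, (s, i)))))) ∈ A ↔
        lam (m, (hx P F s (w.take j), i)) = true)
    (hX : ∀ j ≤ nE pp x, ∀ s < PE pp e1 b x ^ 3,
      X (ses qf m (PE pp e1 b x) (ME pp e1 b x + 1) x j s, c) ≤ ME pp e1 b x ∧
      answers A (ses qf m (PE pp e1 b x) (ME pp e1 b x + 1) x j s) ≠ (List.range m).map
        (fun i => lam (m, (X (ses qf m (PE pp e1 b x) (ME pp e1 b x + 1) x j s, c), i)))) :
    w ∈ alc X qf c m (PE pp e1 b x) (ME pp e1 b x + 1) (nE pp x) x := by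
  classical
  obtain ⟨hPp, hPb1, _⟩ := prm_spec (QE_ne (pp := pp) (e1 := e1) (b := b) x)
  have hwn : w.length ≤ nE pp x := by
    simp only [nE]
    omega
  refine alc_correct (by omega) hPp x (nE pp x) (by simp only [nE]; omega) ?_ hPb1 w hwn ?_
  · intro j hj s hs
    have h1 := (hX j hj s hs).1
    change _ ≤ ME pp e1 b x at h1
    exact Nat.lt_succ_of_le h1
  · intro j hj s hs hcon
    refine (hX j (hj.trans hwn) s hs).2 ?_
    change answers A (ses qf m (PE pp e1 b x) (ME pp e1 b x + 1) x j s) = (List.range m).map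
      (fun i => lam (m, (X (ses qf m (PE pp e1 b x) (ME pp e1 b x + 1) x j s, c), i)))
    rw [show X (ses qf m (PE pp e1 b x) (ME pp e1 b x + 1) x j s, c) =
      hx (PE pp e1 b x) (ME pp e1 b x + 1) s (w.take j) from hcon.symm]
    unfold answers
    rw [ses, List.map_map]
    refine List.map_congr_left fun i _ => ?_
    have h1 := hlab (PE pp e1 b x) (ME pp e1 b x + 1) j s i
    change decide (qf (x, (m, (PE pp e1 b x, (ME pp e1 b x + 1, (j, (s, i)))))) ∈ A) = _
    by_cases h2 : lam (m, (hx (PE pp e1 b x) (ME pp e1 b x + 1) s (w.take j), i)) = true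
    · rw [h2]; exact decide_eq_true (h1.2 h2)
    · rw [Bool.not_eq_true] at h2
      rw [h2]
      refine decide_eq_false fun h3 => ?_
      rw [h1.1 h3] at h2
      exact absurd h2 (by simp)

/-- The lists of the search are short. -/
theorem alc_length {γ : Type} (X : List (List Bool) × γ → ℕ) (qf : Qu → List Bool) (c : γ)
    (m P F n : ℕ) (hP : 1 ≤ P) (x : List Bool) : (alc X qf c m P F n x).length ≤ (n + 1) * P := by
  unfold alc
  rw [List.length_flatMap]
  refine (List.sum_le_card_nsmul _ P ?_).trans ?_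
  · intro y hy
    obtain ⟨j, _, rfl⟩ := List.mem_map.1 hy
    exact (nxt_inv X qf c m P F x hP _).2.1
  · rw [List.length_map, List.length_range, smul_eq_mul]

/-- All sessions. -/
noncomputable def sesL (qf : Qu → List Bool) (pp : Polynomial ℕ) (e1 b m : ℕ) (x : List Bool) :
    List (List (List Bool)) :=
  (List.range (nE pp x + 1)).flatMap fun j => (List.range (PE pp e1 b x ^ 3)).map fun s =>
    ses qf m (PE pp e1 b x) (ME pp e1 b x + 1) x j s

theorem mem_sesL {qf : Qu → List Bool} {m : ℕ} {x : List Bool} {j s : ℕ} (hj : j ≤ nE pp x)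
    (hs : s < PE pp e1 b x ^ 3) :
    ses qf m (PE pp e1 b x) (ME pp e1 b x + 1) x j s ∈ sesL qf pp e1 b m x :=
  List.mem_flatMap.2 ⟨j, List.mem_range.2 (by omega),
    List.mem_map.2 ⟨s, List.mem_range.2 hs, rfl⟩⟩

theorem of_mem_sesL {qf : Qu → List Bool} {p1 : Polynomial ℕ}
    (hp1 : ∀ q, sz (qf q) ≤ p1.eval (sz q))
    (he1 : ∀ n, 2 ≤ n → (p1.comp p3).eval n ≤ n ^ e1) {x : List Bool} {m : ℕ}
    (hm : m ≤ ME pp e1 b x) {qs : List (List Bool)} (h : qs ∈ sesL qf pp e1 b m x) :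
    qs.length = m ∧ ∀ y ∈ qs, y.length ≤ NE pp e1 b x := by
  obtain ⟨j, hj, h⟩ := List.mem_flatMap.1 h
  obtain ⟨s, hs, rfl⟩ := List.mem_map.1 h
  exact ⟨by simp [ses], ses_len hp1 he1 hm (by have := List.mem_range.1 hj; omega)
    (List.mem_range.1 hs)⟩

theorem sesL_poly {α : Type} [TEnc α] {qf : Qu → List Bool} (hq : Poly qf) {m : α → ℕ}
    {x : α → List Bool} (hm : UPoly m) (hx' : Poly x) :
    Poly (fun a => sesL qf pp e1 b (m a) (x a)) := by
  unfold sesL
  refine NPC.Poly.flatMap (l := fun a => List.range (nE pp (x a) + 1))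
    (F := fun a j => (List.range (PE pp e1 b (x a) ^ 3)).map fun s =>
      ses qf (m a) (PE pp e1 b (x a)) (ME pp e1 b (x a) + 1) (x a) j s)
    ((nE_poly.comp hx').add (UPoly.const 1)).range ?_
  have f1 : Poly (fun q : α × ℕ => q.1) := NPC.Poly.fst NPC.Poly.id
  have f2 : Poly (fun q : α × ℕ => q.2) := NPC.Poly.snd NPC.Poly.id
  refine NPC.Poly.map (l := fun q : α × ℕ => List.range (PE pp e1 b (x q.1) ^ 3))
    (F := fun q s => ses qf (m q.1) (PE pp e1 b (x q.1)) (ME pp e1 b (x q.1) + 1) (x q.1) q.2 s)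
    (pow_upolyc (PE_poly.comp (hx'.comp f1)) 3).range ?_
  have g1 : Poly (fun q : (α × ℕ) × ℕ => q.1) := NPC.Poly.fst NPC.Poly.id
  have g2 : Poly (fun q : (α × ℕ) × ℕ => q.2) := NPC.Poly.snd NPC.Poly.id
  have hx2 := (hx'.comp f1).comp g1
  exact ses_poly hq ((hm.comp f1).comp g1) (PE_poly.comp hx2).toPoly
    ((ME_poly.comp hx2).toPoly.succ) hx2 (f2.comp g1) g2

end Pool.Agent.TH684.CX
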