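import Pool.Agent.TH684.CX.NX
import Pool.Agent.TH684.CX.DefsN
import Pool.Agent.TH684.LT.Thm
import Pool.Agent.W920.NL.LawAdv

/-!
# Nondeterministic exclusion for `NP`-hard sets
-/

set_option autoImplicit false

namespace Pool.Agent.TH684.CX

open Pool.Agent.NPC Pool.Agent.H251R5.PQ Pool.Agent.W901.AT Pool.Agent.H579R2.Spt
open Pool.Agent.W920.LN (Tb lk inNP_of)
open Pool.Agent.W920.NL (InNPPoly avs avs_getD avs_sz unpair_fst_length pairBits_len)
open Pool.Agent.TH684.EX
open Pool.Agent.TH684.LT (exclF exclF_spec exclF_poly ftv ftv_poly eval_eq_linear dimF dimF_le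
  exists_pow_add_bound)

theorem poly_of_opt {g : List Bool → Option ℕ} (h : PolyTime (fun z => bits (g z))) : Poly g :=
  poly_of_polyTime h

/-- **Nondeterministic exclusion for an `NP`-hard set gives `NP = coNP`.** -/
theorem compl_of_nfeasible {A L : Set (List Bool)} (hA : NPHard A) (hL : InP L)
    (h : NFeasible (Exclude L A)) {S : Set (List Bool)} (hS : InNP S) : InNP Sᶜ := by
  classical
  obtain ⟨V, hV, hVL⟩ := hL
  obtain ⟨Y, p, b, c, hY, h⟩ := h
  set c' := max b c with hc'
  have hlam : Poly (fun q : ℕ × (ℕ × ℕ) => decide (V (bits q) = [true])) :=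
    NPC.Poly.decide_eq ((PIso.poly_iff.2 hV).comp bits_poly) (NPC.Poly.const [true])
  set Y' : List (List Bool) × (List Bool × List Bool) → Option ℕ :=
    fun q => Y (pairBits q.2.1 q.2.2) with hY'
  have hY'p : Poly Y' := (poly_of_opt hY).comp (H622R2.poly_pairBits
    (NPC.Poly.fst (NPC.Poly.snd NPC.Poly.id)) (NPC.Poly.snd (NPC.Poly.snd NPC.Poly.id)))
  have hW := rdX_poly hY'p p b c'
  obtain ⟨V', Nk, q, hV', hs, hcm⟩ := core_G hW (SndX.mono (A := A) (b := b) (c := c'))
    (approx_X hA hlam (le_max_left b c) hW) S hS p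
  have hsnd : ∀ K : List Bool → Prop, SndX A (fun q => decide (V (bits q) = [true])) b c'
      (rdX Y' p b c') [] K := fun K => rdX_snd fun n qs h1 h2 _ w l hw hl => by
    obtain ⟨h3, h4⟩ := (h n qs h1 h2).2 l ⟨w, hw, hl⟩
    refine ⟨h3.trans (pow_add_mono (le_max_right b c) n), fun h5 => h4 ?_⟩
    rw [h5]
    unfold vec
    refine List.map_congr_left fun i _ => ?_
    exact decide_eq_decide.2 (hVL _).symm
  refine inNP_of (β := List Tb) (R := fun y => V' (y.1, ([], y.2)))
    (hV'.comp (NPC.Poly.pair (NPC.Poly.fst NPC.Poly.id) (NPC.Poly.pair (NPC.Poly.const [])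
      (NPC.Poly.snd NPC.Poly.id)))) q fun x => ?_
  constructor
  · intro hx
    refine hcm x [] (fun z _ => rdX_tot fun n qs hz h1 h2 => ?_) hx
    subst hz
    obtain ⟨l, w, hw, hl⟩ := (h n qs h1 h2).1
    exact ⟨w, l, hw, hl⟩
  · rintro ⟨tbs, -, htbs⟩ hx
    have h1 := hs x [] (hsnd _) hx tbs
    simp only at htbs
    rw [htbs] at h1
    exact Bool.false_ne_true h1.symm

/-- **Nondeterministic exclusion with advice for an `NP`-hard set gives `coNP ⊆ NP/poly`.** -/
theorem inNPPoly_of_afeasible {A L : Set (List Bool)} (hA : NPHard A) (hL : InP L)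
    (h : AFeasible (Exclude L A)) {S : Set (List Bool)} (hS : InNP S) : InNPPoly Sᶜ := by
  classical
  obtain ⟨V, hV, hVL⟩ := hL
  obtain ⟨Y, a, r, p, b, c, hY, ha, h⟩ := h
  set c' := max b c with hc'
  have hlam : Poly (fun q : ℕ × (ℕ × ℕ) => decide (V (bits q) = [true])) :=
    NPC.Poly.decide_eq ((PIso.poly_iff.2 hV).comp bits_poly) (NPC.Poly.const [true])
  set Y' : List (List Bool) × (List Bool × List Bool) → Option ℕ :=
    fun q => Y (pairBits (pairBits q.2.1 (q.1.getD q.2.1.length [])) q.2.2) with hY'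
  have e1 : Poly (fun q : List (List Bool) × (List Bool × List Bool) => q.2.1) :=
    NPC.Poly.fst (NPC.Poly.snd NPC.Poly.id)
  have hY'p : Poly Y' := (poly_of_opt hY).comp (H622R2.poly_pairBits (H622R2.poly_pairBits e1
    (NPC.Poly.getD (NPC.Poly.fst NPC.Poly.id) (NPC.Poly.length e1) (NPC.Poly.const [])))
    (NPC.Poly.snd (NPC.Poly.snd NPC.Poly.id)))
  -- the bound on the witnesses
  set P : Polynomial ℕ := p.comp (Polynomial.C 2 * Polynomial.X + r + 1) with hP
  have hPe : ∀ k : ℕ, P.eval k = p.eval (2 * k + r.eval k + 1) := fun k => by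
    rw [hP]; simp
  -- witnesses which are too long for the algorithm are rejected
  set Y'' : List (List Bool) × (List Bool × List Bool) → Option ℕ := fun q =>
    bif decide (q.2.2.length ≤ p.eval (pairBits q.2.1 (q.1.getD q.2.1.length [])).length) then
      Y' q else none with hY''
  have hY''p : Poly Y'' := NPC.Poly.cond (NPC.Poly.decide_le
    (NPC.Poly.length (NPC.Poly.snd (NPC.Poly.snd NPC.Poly.id)))
    ((UPoly.length (H622R2.poly_pairBits e1 (NPC.Poly.getD (NPC.Poly.fst NPC.Poly.id)
      (NPC.Poly.length e1) (NPC.Poly.const [])))).eval p).toPoly) hY'p (NPC.Poly.const none)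
  have hW := rdX_poly hY''p P b c'
  obtain ⟨V', Nk, q, hV', hs, hcm⟩ := core_G hW (SndX.mono (A := A) (b := b) (c := c'))
    (approx_X hA hlam (le_max_left b c) hW) S hS P
  have hRp : NPC.Poly (fun y : List Bool × List Tb =>
      V' ((unpair y.1).1, (dl (unpair y.1).2, y.2))) := by
    have e1 : NPC.Poly (fun y : List Bool × List Tb => (unpair y.1).1) :=
      NPC.Poly.fst (poly_unpair.comp (NPC.Poly.fst NPC.Poly.id))
    have e2 : NPC.Poly (fun y : List Bool × List Tb => dl (unpair y.1).2) :=
      dl_poly.comp (NPC.Poly.snd (poly_unpair.comp (NPC.Poly.fst NPC.Poly.id)))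
    exact hV'.comp (NPC.Poly.pair e1 (NPC.Poly.pair e2 (NPC.Poly.snd NPC.Poly.id)))
  refine ⟨{y | ∃ tbs : List Tb, sz tbs ≤ q.eval y.length ∧
      V' ((unpair y).1, (dl (unpair y).2, tbs)) = true},
    fun n => bits (avs a (Nk.eval n)), (Nk + 1) * (Polynomial.C 4 * r.comp Nk + 2) + 1,
    inNP_of (β := List Tb) hRp q fun y => Iff.rfl, fun n => ?_, fun x => ?_⟩
  · rw [bits_length]
    have h1 := avs_sz ha (Nk.eval n)
    simp only [Polynomial.eval_add, Polynomial.eval_mul, Polynomial.eval_C, Polynomial.eval_comp,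
      Polynomial.eval_one, Polynomial.eval_ofNat]
    exact h1
  · change x ∈ Sᶜ ↔ ∃ tbs : List Tb, sz tbs ≤ q.eval _ ∧ V' ((unpair _).1, (dl (unpair _).2, tbs)) =
      true
    rw [unpair_pairBits]
    simp only [dl_bits]
    constructor
    · intro hx
      have htot : ∀ z : List Bool, z.length ≤ Nk.eval x.length → ∃ w : List Bool,
          w.length ≤ P.eval z.length ∧
            (rdX Y'' P b c' (avs a (Nk.eval x.length), (z, w))).isSome = true := by
        intro z hz
        refine rdX_tot fun n qs hzq h1 h2 => ?_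
        subst hzq
        obtain ⟨l, w, hw, hl⟩ := (h n qs h1 h2).1
        refine ⟨w, l, ?_, ?_⟩
        · rw [hPe]
          refine hw.trans (eval_mono p ?_)
          rw [pairBits_len]
          have := ha (bits qs).length
          omega
        · simp only [hY'', hY']
          rw [avs_getD a hz, decide_eq_true hw, cond_true]
          exact hl
      obtain ⟨tbs, ht1, ht2⟩ := hcm x (avs a (Nk.eval x.length)) htot hx
      refine ⟨tbs, ht1.trans (eval_mono q ?_), ht2⟩
      have h1 := unpair_fst_length (pairBits x (bits (avs a (Nk.eval x.length))))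
      rwa [unpair_pairBits] at h1
    · rintro ⟨tbs, -, htbs⟩ hx
      have h1 := hs x (avs a (Nk.eval x.length)) ?_ hx tbs
      · rw [htbs] at h1
        exact Bool.false_ne_true h1.symm
      refine rdX_snd fun n qs h1 h2 hK w l _ hl => ?_
      simp only [hY'', hY'] at hl
      rw [avs_getD a hK] at hl
      by_cases hw : w.length ≤ p.eval (pairBits (bits qs) (a (bits qs).length)).length
      · rw [decide_eq_true hw, cond_true] at hl
        obtain ⟨h3, h4⟩ := (h n qs h1 h2).2 l ⟨w, hw, hl⟩
        refine ⟨h3.trans (pow_add_mono (le_max_right b c) n), fun h5 => h4 ?_⟩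
        rw [h5]
        unfold vec
        refine List.map_congr_left fun i _ => ?_
        exact decide_eq_decide.2 (hVL _).symm
      · rw [decide_eq_false hw, cond_false] at hl
        exact absurd hl (by simp)

end Pool.Agent.TH684.CX
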