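import Pool.Agent.TH684.CX.CoreG
import Pool.Agent.TH684.EX.Thm

/-!
# Exclusion by readers with a table
-/

set_option autoImplicit false

namespace Pool.Agent.TH684.CX

open Pool.Agent.NPC Pool.Agent.H579R2.Spt Pool.Agent.H251R5.PQ Pool.Agent.W901.AT
open Pool.Agent.W901.FH (hx hx_poly pow_polyc pow_upolyc)
open Pool.Agent.W920.LN (Tb lk lk_poly isSome_poly upoly_bound)
open Pool.Agent.W920.NL (Tc Rd go go_poly valid valid_poly)
open Pool.Agent.TH684.EX (Qu ses ses_poly LabE labE_np)

/-- The label read from the table. -/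
def rdl (W : Rd) (q : List (List Bool) × Tc) : ℕ :=
  (((go W q.2 (bits q.1)).getD []).head?.getD []).length

theorem rdl_poly {W : Rd} (hW : Poly W) : Poly (rdl W) := by
  unfold rdl
  exact NPC.Poly.length (NPC.Poly.head?_getD (NPC.Poly.optGetD
    (go_poly hW (NPC.Poly.snd NPC.Poly.id) (bits_poly.comp (NPC.Poly.fst NPC.Poly.id)))
    (NPC.Poly.const [])) [])

/-- The soundness of a reader with parameter `θ`, for the lists whose codes satisfy `K`: the labels
are excluded. -/
def SndX (A : Set (List Bool)) (lam : ℕ × (ℕ × ℕ) → Bool) (b c : ℕ) (W : Rd)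
    (θ : List (List Bool)) (K : List Bool → Prop) : Prop :=
  ∀ (n : ℕ) (qs : List (List Bool)), qs.length = n ^ b + b → (∀ y ∈ qs, y.length ≤ n) →
    K (bits qs) → ∀ w l, W (θ, (bits qs, w)) = some l → ∃ h, l = [h] ∧ h.length ≤ n ^ c + c ∧
      answers A qs ≠ (List.range qs.length).map (fun i => lam (qs.length, (h.length, i)))

theorem SndX.mono {A : Set (List Bool)} {lam : ℕ × (ℕ × ℕ) → Bool} {b c : ℕ} {W : Rd}
    (θ : List (List Bool)) (X X' : List Bool → Prop) (h : SndX A lam b c W θ X')
    (hX : ∀ z, X z → X' z) : SndX A lam b c W θ X :=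
  fun n qs h1 h2 h3 => h n qs h1 h2 (hX _ h3)

theorem pow_add_mono {b c : ℕ} (h : b ≤ c) (n : ℕ) : n ^ b + b ≤ n ^ c + c := by
  rcases Nat.eq_zero_or_pos n with rfl | hn
  · rcases Nat.eq_zero_or_pos b with rfl | hb
    · rcases Nat.eq_zero_or_pos c with rfl | hc
      · exact le_rfl
      · rw [zero_pow hc.ne']
        simp only [pow_zero]
        omega
    · rw [zero_pow hb.ne', zero_pow (by omega)]
      omega
  · exact Nat.add_le_add (Nat.pow_le_pow_right hn h) h

/-- **Candidate lists from exclusion with a table.** -/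
theorem approx_X {A : Set (List Bool)} (hA : NPHard A) {lam : ℕ × (ℕ × ℕ) → Bool}
    (hlam : Poly lam) {b c : ℕ} (hbc : b ≤ c) {W : Rd} (hW : Poly W) :
    Approx W (SndX A lam b c W) := by
  intro R hR pp
  obtain ⟨f, hf, hfA⟩ := hA _ (labE_np hR pp hlam)
  have hq : Poly (fun q : Qu => f (bits q)) := (PIso.poly_iff.2 hf).comp bits_poly
  obtain ⟨p1, hp1⟩ := hq.sz_le
  obtain ⟨e1, he1⟩ := exists_pow_bound (p1.comp p3)
  have hme : UPoly (ME pp e1 c) := ME_poly
  have hpe : UPoly (PE pp e1 c) := PE_poly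
  have hne : UPoly (nE pp) := nE_poly
  set mm : List Bool → ℕ := fun x => (NE pp e1 c x) ^ b + b with hmm
  have hmm' : UPoly mm := (pow_upolyc NE_poly b).add (UPoly.const b)
  have hmle : ∀ x, mm x ≤ ME pp e1 c x := fun x => pow_add_mono hbc _
  obtain ⟨r, hr⟩ := upoly_bound ((hne.add (UPoly.const 1)).mul hpe)
  have f1 : Poly (fun q : Tc × List Bool => q.1) := NPC.Poly.fst NPC.Poly.id
  have f2 : Poly (fun q : Tc × List Bool => q.2) := NPC.Poly.snd NPC.Poly.id
  refine ⟨fun q => alc (rdl W) (fun q => f (bits q)) q.1 (mm q.2) (PE pp e1 c q.2)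
    (ME pp e1 c q.2 + 1) (nE pp q.2) q.2,
    fun x => (sesL (fun q => f (bits q)) pp e1 c (mm x) x).map bits, r, ?_, ?_, ?_, ?_⟩
  · exact alc_poly (rdl_poly hW) hq f1 (hmm'.comp f2) (hpe.comp f2) (fun a => PE_pos a.2)
      ((hme.comp f2).add (UPoly.const 1)).toPoly (hne.comp f2) f2
  · exact NPC.Poly.map (l := fun x => sesL (fun q => f (bits q)) pp e1 c (mm x) x)
      (F := fun _ y => bits y) (sesL_poly hq hmm' NPC.Poly.id)
      (bits_poly.comp (NPC.Poly.snd NPC.Poly.id))
  · intro q
    exact (alc_length _ _ _ _ _ _ _ (PE_pos q.2) _).trans (hr q.2)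
  · intro tc x y hval hsnd hy huniq
    refine alc_mem (A := A) (lam := lam) ?_ ?_ ?_
    · obtain ⟨w, hw⟩ := hy
      exact hw.1
    · intro P F j s i
      rw [← hfA, bits_mem_lang]
      unfold LabE
      constructor
      · rintro ⟨y', w', hw', h⟩
        rw [huniq y' w' hw'] at h
        exact h
      · intro h
        obtain ⟨w, hw⟩ := hy
        exact ⟨y, w, hw, h⟩
    · intro j hj s hs
      have hmem := mem_sesL (qf := fun q : Qu => f (bits q)) (b := c) (e1 := e1)
        (m := mm x) hj hs
      obtain ⟨h1, h2⟩ := of_mem_sesL hp1 he1 (hmle x) hmem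
      set qs := ses (fun q : Qu => f (bits q)) (mm x) (PE pp e1 c x) (ME pp e1 c x + 1) x j s
        with hqs
      have hk : bits qs ∈ (sesL (fun q => f (bits q)) pp e1 c (mm x) x).map bits :=
        List.mem_map.2 ⟨qs, hmem, rfl⟩
      obtain ⟨l, hl⟩ := Option.isSome_iff_exists.1 (hval _ hk)
      obtain ⟨h, rfl, h3, h4⟩ := hsnd (NE pp e1 c x) qs h1 h2 hk _ l hl
      have h5 : rdl W (qs, tc) = h.length := by
        unfold rdl
        rw [hl]
        rfl
      rw [h5]
      rw [h1] at h4
      exact ⟨h3, h4⟩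

/-! ### A reader for partial functions -/

/-- Is `z` the code of a list of `n ^ b + b` strings of length at most `n`, for some `n`? -/
def shp (b : ℕ) (z : List Bool) : Bool :=
  decide (bits (dl z) = z) && (List.range (z.length + 1)).any fun n =>
    decide ((dl z).length = n ^ b + b) && (dl z).all fun y => decide (y.length ≤ n)

theorem shp_poly (b : ℕ) : Poly (shp b) := by
  unfold shp
  have e1 : Poly (fun q : List Bool × ℕ => q.1) := NPC.Poly.fst NPC.Poly.id
  have e2 : Poly (fun q : List Bool × ℕ => q.2) := NPC.Poly.snd NPC.Poly.id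
  refine NPC.Poly.and (NPC.Poly.decide_eq (bits_poly.comp dl_poly) NPC.Poly.id) ?_
  refine NPC.Poly.any (l := fun z : List Bool => List.range (z.length + 1))
    (p := fun z n => decide ((dl z).length = n ^ b + b) && (dl z).all fun y =>
      decide (y.length ≤ n)) ((UPoly.length NPC.Poly.id).add (UPoly.const 1)).range ?_
  refine NPC.Poly.and (NPC.Poly.decide_eq (NPC.Poly.length (dl_poly.comp e1))
    (NPC.Poly.add (pow_polyc e2 b) (NPC.Poly.const b))) ?_
  refine NPC.Poly.all (l := fun q : List Bool × ℕ => dl q.1)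
    (p := fun q y => decide (y.length ≤ q.2)) (dl_poly.comp e1) ?_
  exact NPC.Poly.decide_le (NPC.Poly.length (NPC.Poly.snd NPC.Poly.id))
    (e2.comp (NPC.Poly.fst NPC.Poly.id))

theorem shp_of {b n : ℕ} {qs : List (List Bool)} (h1 : qs.length = n ^ b + b)
    (h2 : ∀ y ∈ qs, y.length ≤ n) : shp b (bits qs) = true ∧
      ∃ n' ≤ (bits qs).length, n' ≤ n ∧ qs.length = n' ^ b + b ∧ ∀ y ∈ qs, y.length ≤ n' := by
  have h3 : ∀ y ∈ qs, y.length ≤ (bits qs).length := fun y hy => by
    have e1 := sz_le_of_mem hy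
    have e2 := length_lt_sz y
    have e3 := bits_length qs
    omega
  have h4 : qs.length ≤ (bits qs).length := by
    have e1 := length_lt_sz qs
    have e3 := bits_length qs
    omega
  have h5 : qs.length = (min n (bits qs).length) ^ b + b := by
    rcases Nat.eq_zero_or_pos b with rfl | hb
    · simpa using h1
    · have h6 : n ≤ n ^ b := Nat.le_self_pow hb.ne' n
      rw [min_eq_left (by omega)]
      exact h1
  have h6 : ∀ y ∈ qs, y.length ≤ min n (bits qs).length := fun y hy =>
    le_min (h2 y hy) (h3 y hy)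
  refine ⟨?_, _, min_le_right _ _, min_le_left _ _, h5, h6⟩
  unfold shp
  rw [dl_bits, decide_eq_true rfl, Bool.true_and, List.any_eq_true]
  refine ⟨min n (bits qs).length, List.mem_range.2 (by omega), ?_⟩
  rw [Bool.and_eq_true, decide_eq_true_eq, List.all_eq_true]
  exact ⟨h5, fun y hy => decide_eq_true (h6 y hy)⟩

theorem of_shp {b : ℕ} {z : List Bool} (h : shp b z = true) : ∃ (n : ℕ) (qs : List (List Bool)),
    z = bits qs ∧ qs.length = n ^ b + b ∧ ∀ y ∈ qs, y.length ≤ n := by
  unfold shp at h
  rw [Bool.and_eq_true, decide_eq_true_eq, List.any_eq_true] at h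
  obtain ⟨h1, n, _, h2⟩ := h
  rw [Bool.and_eq_true, decide_eq_true_eq, List.all_eq_true] at h2
  exact ⟨n, dl z, h1.symm, h2.1, fun y hy => by simpa using h2.2 y hy⟩

/-- The reader of an algorithm which outputs numbers. -/
def rdX (Y : List (List Bool) × (List Bool × List Bool) → Option ℕ) (p : Polynomial ℕ)
    (b c : ℕ) : Rd := fun q =>
  bif shp b q.2.1 then
    (bif decide (q.2.2.length ≤ p.eval q.2.1.length) then
      (Y q).elim none fun l => some [List.replicate (min l (q.2.1.length ^ c + c)) none]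
    else none)
  else some [[]]

theorem rdX_poly {Y : List (List Bool) × (List Bool × List Bool) → Option ℕ} (hY : Poly Y)
    (p : Polynomial ℕ) (b c : ℕ) : Poly (rdX Y p b c) := by
  have e1 : NPC.Poly (fun q : List (List Bool) × (List Bool × List Bool) => q.2.1) :=
    NPC.Poly.fst (NPC.Poly.snd NPC.Poly.id)
  have e2 : NPC.Poly (fun q : List (List Bool) × (List Bool × List Bool) => q.2.2) :=
    NPC.Poly.snd (NPC.Poly.snd NPC.Poly.id)
  have hU : UPoly (fun q : List (List Bool) × (List Bool × List Bool) => q.2.1.length ^ c + c) :=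
    (pow_upolyc (UPoly.length e1) c).add (UPoly.const c)
  have e3 : NPC.Poly (fun q : List (List Bool) × (List Bool × List Bool) =>
      (Y q).elim none fun l =>
        some [List.replicate (min l (q.2.1.length ^ c + c)) (none : Option Bool)]) := by
    refine (NPC.Poly.optCases (o := Y) (g := fun _ => none)
      (h := fun q l => some [List.replicate (min l (q.2.1.length ^ c + c)) (none : Option Bool)])
      hY (NPC.Poly.const none) ?_).congr fun q => by cases Y q <;> rfl
    refine NPC.Poly.some (NPC.Poly.cons ?_ (NPC.Poly.const []))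
    have f1 : Poly (fun t : (List (List Bool) × (List Bool × List Bool)) × ℕ => t.1) :=
      NPC.Poly.fst NPC.Poly.id
    have f2 : Poly (fun t : (List (List Bool) × (List Bool × List Bool)) × ℕ => t.2) :=
      NPC.Poly.snd NPC.Poly.id
    have h1 : UPoly (fun t : (List (List Bool) × (List Bool × List Bool)) × ℕ =>
        min t.2 (t.1.2.1.length ^ c + c)) :=
      UPoly.of_le (NPC.Poly.min f2 (hU.comp f1).toPoly) (hU.comp f1) (fun _ => min_le_right _ _)
    refine (NPC.Poly.map (l := fun t : (List (List Bool) × (List Bool × List Bool)) × ℕ =>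
      List.range (min t.2 (t.1.2.1.length ^ c + c))) (F := fun _ _ => (none : Option Bool))
      h1.range (NPC.Poly.const none)).congr fun t => ?_
    rw [List.map_const', List.length_range]
  exact NPC.Poly.cond ((shp_poly b).comp e1) (NPC.Poly.cond (NPC.Poly.decide_le
    (NPC.Poly.length e2) ((UPoly.length e1).eval p).toPoly) e3 (NPC.Poly.const none))
    (NPC.Poly.const _)

/-- The soundness of this reader. -/
theorem rdX_snd {A : Set (List Bool)} {lam : ℕ × (ℕ × ℕ) → Bool} {b c : ℕ}
    {Y : List (List Bool) × (List Bool × List Bool) → Option ℕ} {p : Polynomial ℕ}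
    {θ : List (List Bool)} {K : List Bool → Prop}
    (h : ∀ (n : ℕ) (qs : List (List Bool)), qs.length = n ^ b + b → (∀ y ∈ qs, y.length ≤ n) →
      K (bits qs) → ∀ w l, w.length ≤ p.eval (bits qs).length → Y (θ, (bits qs, w)) = some l →
        l ≤ n ^ c + c ∧
        answers A qs ≠ (List.range qs.length).map (fun i => lam (qs.length, (l, i)))) :
    SndX A lam b c (rdX Y p b c) θ K := by
  intro n qs h1 h2 hK w l hl
  obtain ⟨h3, n', hn', _, h4, h5⟩ := shp_of h1 h2
  unfold rdX at hl
  simp only [h3, cond_true] at hl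
  by_cases hw : w.length ≤ p.eval (bits qs).length
  · rw [decide_eq_true hw, cond_true] at hl
    cases hY : Y (θ, (bits qs, w)) with
    | none => simp only [hY, Option.elim] at hl; exact absurd hl (by simp)
    | some l' =>
      simp only [hY, Option.elim] at hl
      obtain ⟨h6, h7⟩ := h n qs h1 h2 hK w l' hw hY
      obtain ⟨h8, _⟩ := h n' qs h4 h5 hK w l' hw hY
      have h9 : l' ≤ (bits qs).length ^ c + c :=
        h8.trans (Nat.add_le_add_right (Nat.pow_le_pow_left hn' c) c)
      refine ⟨_, (Option.some.inj hl).symm, ?_, ?_⟩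
      · rw [List.length_replicate, min_eq_left h9]
        exact h6
      · rw [List.length_replicate, min_eq_left h9]
        exact h7
  · rw [decide_eq_false hw, cond_false] at hl
    exact absurd hl (by simp)

/-- The totality of this reader. -/
theorem rdX_tot {b c : ℕ} {Y : List (List Bool) × (List Bool × List Bool) → Option ℕ}
    {p : Polynomial ℕ} {θ : List (List Bool)} {z : List Bool}
    (h : ∀ (n : ℕ) (qs : List (List Bool)), z = bits qs → qs.length = n ^ b + b →
      (∀ y ∈ qs, y.length ≤ n) → ∃ w l, w.length ≤ p.eval z.length ∧ Y (θ, (z, w)) = some l) :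
    ∃ w : List Bool, w.length ≤ p.eval z.length ∧ (rdX Y p b c (θ, (z, w))).isSome = true := by
  by_cases hs : shp b z = true
  · obtain ⟨n, qs, h1, h2, h3⟩ := of_shp hs
    obtain ⟨w, l, hw, hl⟩ := h n qs h1 h2 h3
    refine ⟨w, hw, ?_⟩
    unfold rdX
    simp only [hs, cond_true]
    rw [decide_eq_true hw, cond_true, hl]
    rfl
  · rw [Bool.not_eq_true] at hs
    refine ⟨[], Nat.zero_le _, ?_⟩
    unfold rdX
    simp only [hs, cond_false]
    rfl

end Pool.Agent.TH684.CX
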