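import Pool.Agent.TH684.CX.Srch

/-!
# Exclusion of one vector with a context: the search is polynomial
-/

set_option autoImplicit false

namespace Pool.Agent.TH684.CX

open Pool.Agent.NPC Pool.Agent.H579R2.Spt Pool.Agent.W901.AT
open Pool.Agent.W901.FH (hx hx_poly pow_polyc pow_upolyc)
open Pool.Agent.TH684.EX (Qu ses ses_poly)

variable {α γ : Type} [TEnc α] [TEnc γ]

section

variable {X : List (List Bool) × γ → ℕ} {qf : Qu → List Bool}

theorem kp_poly (hX : Poly X) (hq : Poly qf) {c : α → γ} {m P F : α → ℕ} {x u : α → List Bool}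
    (hc : Poly c) (hm : UPoly m) (hP : UPoly P) (hF : Poly F) (hx' : Poly x) (hu : Poly u) :
    Poly (fun y => kp X qf (c y) (m y) (P y) (F y) (x y) (u y)) := by
  unfold kp
  refine NPC.Poly.all (l := fun y => List.range (P y ^ 3))
    (p := fun y s => !decide (hx (P y) (F y) s (u y) =
      X (ses qf (m y) (P y) (F y) (x y) (u y).length s, c y)))
    (pow_upolyc hP 3).range ?_
  have e : Poly (fun q : α × ℕ => q.1) := NPC.Poly.fst NPC.Poly.id
  have e2 : Poly (fun q : α × ℕ => q.2) := NPC.Poly.snd NPC.Poly.id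
  exact NPC.Poly.not (NPC.Poly.decide_eq (hx_poly (hP.toPoly.comp e) (hF.comp e) e2 (hu.comp e))
    (hX.comp (NPC.Poly.pair (ses_poly hq (hm.comp e) (hP.toPoly.comp e) (hF.comp e) (hx'.comp e)
      (NPC.Poly.length (hu.comp e)) e2) (hc.comp e))))

theorem nxt_poly (hX : Poly X) (hq : Poly qf) {c : α → γ} {m P F : α → ℕ} {x : α → List Bool}
    {W : α → List (List Bool)} (hc : Poly c) (hm : UPoly m) (hP : UPoly P) (hF : Poly F) (hx' : Poly x)
    (hW : Poly W) :
    Poly (fun y => nxt X qf (c y) (m y) (P y) (F y) (x y) (W y)) := by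
  unfold nxt
  have e : Poly (fun q : α × List Bool => q.1) := NPC.Poly.fst NPC.Poly.id
  refine take_poly' (NPC.Poly.filter (l := fun y => children (W y))
    (p := fun y u => kp X qf (c y) (m y) (P y) (F y) (x y) u) (children_poly hW) ?_) hP.toPoly
  exact kp_poly hX hq (hc.comp e) (hm.comp e) (hP.comp e) (hF.comp e) (hx'.comp e) (NPC.Poly.snd NPC.Poly.id)

theorem iter_poly (hX : Poly X) (hq : Poly qf) {c : α → γ} {m P F N : α → ℕ} {x : α → List Bool}
    (hc : Poly c) (hm : UPoly m) (hP : UPoly P) (hP1 : ∀ a, 1 ≤ P a) (hF : Poly F) (hN : UPoly N)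
    (hx' : Poly x) :
    Poly (fun y => (nxt X qf (c y) (m y) (P y) (F y) (x y))^[N y] [[]]) := by
  obtain ⟨qM', hqM'⟩ := Poly.sz_le hP
  obtain ⟨qp', hqp'⟩ := Poly.sz_le hN
  have hMle : ∀ a, P a ≤ qM'.eval (sz a) := by
    intro a
    have h1 := hqM' a
    have h2 := length_lt_sz (List.replicate (P a) ())
    rw [List.length_replicate] at h2
    omega
  have hple : ∀ a, N a ≤ qp'.eval (sz a) := by
    intro a
    have h1 := hqp' a
    have h2 := length_lt_sz (List.replicate (N a) ())
    rw [List.length_replicate] at h2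
    omega
  have hstep : Poly (fun q : α × List (List Bool) =>
      nxt X qf (c q.1) (m q.1) (P q.1) (F q.1) (x q.1) q.2) := by
    have e1 : Poly (fun q : α × List (List Bool) => q.1) := NPC.Poly.fst NPC.Poly.id
    have e2 : Poly (fun q : α × List (List Bool) => q.2) := NPC.Poly.snd NPC.Poly.id
    exact nxt_poly hX hq (hc.comp e1) (hm.comp e1) (hP.comp e1) (hF.comp e1) (hx'.comp e1) e2
  have h1 := NPC.Poly.iterLen (l := fun a => List.replicate (N a) ())
    (s := fun _ : α => ([[]] : List (List Bool)))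
    (F := fun a s => nxt X qf (c a) (m a) (P a) (F a) (x a) s) hN
    (NPC.Poly.const _) hstep
    (qM' * (Polynomial.C 4 * qp' + 2) + 1) (by
      intro a i hi
      rw [List.length_replicate] at hi
      obtain ⟨h2, h3, _⟩ := nxt_inv X qf (c a) (m a) (P a) (F a) (x a) (hP1 a) i
      set s := (nxt X qf (c a) (m a) (P a) (F a) (x a))^[i] [[]]
      have h4 := sz_le_length_mul s (4 * i + 1) (fun u hu => by
        have := sz_listBool_le u
        rw [h2 u hu] at this
        exact this)
      have h7 := hMle a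
      have h8 := hple a
      simp only [Polynomial.eval_add, Polynomial.eval_mul, Polynomial.eval_C, Polynomial.eval_one,
        Polynomial.eval_ofNat]
      have h9 : s.length ≤ qM'.eval (sz a) := h3.trans h7
      have h10 : 4 * i + 1 + 1 ≤ 4 * qp'.eval (sz a) + 2 := by omega
      have h11 := Nat.mul_le_mul h9 h10
      omega)
  exact h1.congr fun a => by rw [List.length_replicate]

theorem alc_poly (hX : Poly X) (hq : Poly qf) {c : α → γ} {m P F n : α → ℕ} {x : α → List Bool}
    (hc : Poly c) (hm : UPoly m) (hP : UPoly P) (hP1 : ∀ a, 1 ≤ P a) (hF : Poly F) (hn : UPoly n)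
    (hx' : Poly x) :
    Poly (fun a => alc X qf (c a) (m a) (P a) (F a) (n a) (x a)) := by
  unfold alc
  refine NPC.Poly.flatMap (l := fun a => List.range (n a + 1))
    (F := fun a j => (nxt X qf (c a) (m a) (P a) (F a) (x a))^[min j (n a)] [[]])
    (hn.add (UPoly.const 1)).range ?_
  have e1 : Poly (fun q : α × ℕ => q.1) := NPC.Poly.fst NPC.Poly.id
  have e2 : Poly (fun q : α × ℕ => q.2) := NPC.Poly.snd NPC.Poly.id
  have u3 : UPoly (fun q : α × ℕ => min q.2 (n q.1)) :=
    UPoly.of_le (NPC.Poly.min e2 (hn.comp e1).toPoly) (hn.comp e1) (fun _ => min_le_right _ _)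
  exact iter_poly hX hq (hc.comp e1) (hm.comp e1) (hP.comp e1) (fun a => hP1 a.1) (hF.comp e1) u3 (hx'.comp e1)

end

end Pool.Agent.TH684.CX
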