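import Pool.Agent.TH684.EX.PolyE

/-!
# Exclusion of one vector with a context: the search
-/

set_option autoImplicit false

namespace Pool.Agent.TH684.CX

open Finset Pool.Agent.NPC Pool.Agent.H579R2.Spt Pool.Agent.H251R5.PQ Pool.Agent.W901.AT
open Pool.Agent.W901.FH (hx seed_spec seed_lt P_SURJ)
open Pool.Agent.TH684.EX (Qu ses)

variable {γ : Type}

/-- Does the string `u` avoid the excluded labels of all its sessions? -/
def kp (X : List (List Bool) × γ → ℕ) (qf : Qu → List Bool) (c : γ) (m P F : ℕ) (x : List Bool)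
    (u : List Bool) : Bool :=
  (List.range (P ^ 3)).all (fun s => !decide (hx P F s u = X (ses qf m P F x u.length s, c)))

/-- One level of the search. -/
def nxt (X : List (List Bool) × γ → ℕ) (qf : Qu → List Bool) (c : γ) (m P F : ℕ) (x : List Bool)
    (W : List (List Bool)) : List (List Bool) :=
  ((children W).filter (kp X qf c m P F x)).take P

/-- All strings kept by the search. -/
def alc (X : List (List Bool) × γ → ℕ) (qf : Qu → List Bool) (c : γ) (m P F n : ℕ) (x : List Bool) :
    List (List Bool) :=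
  (List.range (n + 1)).flatMap (fun j => (nxt X qf c m P F x)^[min j n] [[]])

/-- Few strings of the same length avoid the excluded labels of all sessions. -/
theorem kp_count {X : List (List Bool) × γ → ℕ} {qf : Qu → List Bool} {e : γ} {m P F : ℕ}
    (hF1 : 1 ≤ F) (hPp : P.Prime) (x : List Bool) (j n : ℕ) (hjn : j ≤ n)
    (hX : ∀ s < P ^ 3, X (ses qf m P F x j s, e) < F)
    (hbig : n * (2 * F ^ 2 + 1) ^ 2 < P) (hbig2 : 2 * F ≤ P)
    (U : Finset (List Bool)) (hU : ∀ u ∈ U, u.length = j ∧ kp X qf e m P F x u = true) :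
    U.card ≤ 2 * F ^ 2 := by
  classical
  by_contra hcon
  push Not at hcon
  obtain ⟨U', hU'U, hU'⟩ := Finset.exists_subset_card_eq (show 2 * F ^ 2 + 1 ≤ U.card by omega)
  have hfew : ∀ u ∈ U'.offDiag, ((range P).filter fun a => hv P a u.1 = hv P a u.2).card ≤ n := by
    rintro ⟨u, v⟩ huv
    obtain ⟨hu, hv', hne⟩ := Finset.mem_offDiag.1 huv
    have h3 := (hU u (hU'U hu)).1
    have h4 := (hU v (hU'U hv')).1
    exact (collisions hPp u v (h3.trans h4.symm) hne).trans (h3.le.trans hjn)
  obtain ⟨a, ha, hinj⟩ : ∃ a < P, ∀ u ∈ U', ∀ v ∈ U', hv P a u = hv P a v → u = v := by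
    by_contra hno
    push Not at hno
    have h1 : ∀ a ∈ range P, 1 ≤ (U'.offDiag.filter fun u => hv P a u.1 = hv P a u.2).card := by
      intro a ha
      obtain ⟨u, hu, v, hv1, hv2, hne⟩ := hno a (Finset.mem_range.1 ha)
      exact Finset.card_pos.2 ⟨(u, v), Finset.mem_filter.2 ⟨Finset.mem_offDiag.2 ⟨hu, hv1, hne⟩, hv2⟩⟩
    have hsum : ∑ a ∈ range P, (U'.offDiag.filter fun u => hv P a u.1 = hv P a u.2).card =
        ∑ u ∈ U'.offDiag, ((range P).filter fun a => hv P a u.1 = hv P a u.2).card := by
      simp only [Finset.card_filter]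
      rw [Finset.sum_comm]
    have h2 : P ≤ ∑ a ∈ range P, (U'.offDiag.filter fun u => hv P a u.1 = hv P a u.2).card := by
      have := Finset.sum_le_sum h1
      rwa [Finset.sum_const, Finset.card_range, smul_eq_mul, mul_one] at this
    have h3 : ∑ u ∈ U'.offDiag, ((range P).filter fun a => hv P a u.1 = hv P a u.2).card ≤
        (2 * F ^ 2 + 1) ^ 2 * n := by
      refine (Finset.sum_le_sum hfew).trans ?_
      rw [Finset.sum_const, smul_eq_mul]
      refine Nat.mul_le_mul_right _ ?_
      rw [Finset.offDiag_card, hU']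
      have : (2 * F ^ 2 + 1) ^ 2 = (2 * F ^ 2 + 1) * (2 * F ^ 2 + 1) := by ring
      omega
    rw [hsum] at h2
    have h4 : (2 * F ^ 2 + 1) ^ 2 * n = n * (2 * F ^ 2 + 1) ^ 2 := by ring
    omega
  set V : Finset ℕ := U'.image (hv P a) with hV
  have hVc : V.card = 2 * F ^ 2 + 1 := by
    rw [hV, Finset.card_image_of_injOn, hU']
    intro u hu v hv' h
    exact hinj u hu v hv' h
  set r : ℕ → ℕ → ℕ := fun b c => X (ses qf m P F x j (a + P * (b + P * c)), e) with hr
  obtain ⟨b, hb, c, hc, v, hv1, hv2⟩ := Pool.Agent.W12.FH.surj P F V hPp hF1 hbig2 (by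
    intro v hv'
    obtain ⟨u, _, rfl⟩ := Finset.mem_image.1 hv'
    exact hv_lt hPp.pos a u) (by rw [hVc]; omega) r (fun b hb c hc => hX _ (seed_lt ha hb hc))
  obtain ⟨u, hu, rfl⟩ := Finset.mem_image.1 hv1
  obtain ⟨hu1, hu2⟩ := hU u (hU'U hu)
  unfold kp at hu2
  rw [List.all_eq_true] at hu2
  have h3 := hu2 (a + P * (b + P * c)) (List.mem_range.2 (seed_lt ha hb hc))
  obtain ⟨e1, e2, e3⟩ := seed_spec (c := c) ha hb
  have h4 : hx P F (a + P * (b + P * c)) u = r b c := by
    unfold hx
    rw [e1, e2, e3]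
    exact hv2
  rw [hu1, h4] at h3
  simp [hr] at h3

theorem nxt_inv (X : List (List Bool) × γ → ℕ) (qf : Qu → List Bool) (c : γ) (m P F : ℕ) (x : List Bool)
    (hP : 1 ≤ P) (j : ℕ) :
    (∀ u ∈ (nxt X qf c m P F x)^[j] [[]], u.length = j) ∧
      ((nxt X qf c m P F x)^[j] [[]]).length ≤ P ∧ ((nxt X qf c m P F x)^[j] [[]]).Nodup := by
  induction j with
  | zero => simpa using hP
  | succ j ih =>
    rw [Function.iterate_succ_apply']
    obtain ⟨h1, h2, h3⟩ := ih
    set W := (nxt X qf c m P F x)^[j] [[]]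
    refine ⟨?_, ?_, ?_⟩
    · intro u hu
      unfold nxt at hu
      have h4 := List.mem_of_mem_take hu
      obtain ⟨t, ht, b, rfl⟩ := mem_children.1 (List.mem_filter.1 h4).1
      rw [List.length_append, h1 t ht]
      rfl
    · unfold nxt
      rw [List.length_take]
      exact min_le_left _ _
    · unfold nxt
      exact (List.take_sublist _ _).nodup (((children_nodup h3).filter _))

/-- **Correctness of the search.** -/
theorem alc_correct {X : List (List Bool) × γ → ℕ} {qf : Qu → List Bool} {c : γ} {m P F : ℕ}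
    (hF1 : 1 ≤ F) (hPp : P.Prime) (x : List Bool) (n : ℕ) (hn : 1 ≤ n)
    (hX : ∀ j ≤ n, ∀ s < P ^ 3, X (ses qf m P F x j s, c) < F)
    (hbig : n * (2 * F ^ 2 + 1) ^ 2 < P)
    (w : List Bool) (hw : w.length ≤ n)
    (hgood : ∀ j ≤ w.length, ∀ s < P ^ 3, hx P F s (w.take j) ≠ X (ses qf m P F x j s, c)) :
    w ∈ alc X qf c m P F n x := by
  classical
  have hb1 : 2 * F ^ 2 ≤ P := by
    have h1 : 2 * F ^ 2 + 1 ≤ (2 * F ^ 2 + 1) ^ 2 := Nat.le_self_pow (by norm_num) _
    have h2 : 1 * (2 * F ^ 2 + 1) ^ 2 ≤ n * (2 * F ^ 2 + 1) ^ 2 := Nat.mul_le_mul_right _ hn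
    omega
  have hb2 : 2 * F ≤ P := by
    have h1 : F ≤ F ^ 2 := Nat.le_self_pow (by norm_num) _
    omega
  have key : ∀ j ≤ w.length, w.take j ∈ (nxt X qf c m P F x)^[j] [[]] := by
    intro j
    induction j with
    | zero => intro _; simp
    | succ j ih =>
      intro hj
      rw [Function.iterate_succ_apply']
      obtain ⟨h1, h2, h3⟩ := nxt_inv X qf c m P F x hPp.pos j
      have h6 := ih (by omega)
      set W := (nxt X qf c m P F x)^[j] [[]]
      have hlen : (w.take (j + 1)).length = j + 1 := by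
        rw [List.length_take]; omega
      have h7 : w.take (j + 1) ∈ (children W).filter (kp X qf c m P F x) := by
        refine List.mem_filter.2 ⟨?_, ?_⟩
        · refine mem_children.2 ⟨w.take j, h6, w[j]'(by omega), ?_⟩
          exact (List.take_append_getElem (by omega)).symm
        · unfold kp
          rw [List.all_eq_true]
          intro a ha
          have h8 := hgood (j + 1) hj a (List.mem_range.1 ha)
          rw [hlen]
          simpa using h8
      have h8 : ((children W).filter (kp X qf c m P F x)).length ≤ P := by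
        have h9 : ((children W).filter (kp X qf c m P F x)).Nodup := (children_nodup h3).filter _
        rw [← List.toFinset_card_of_nodup h9]
        refine (kp_count hF1 hPp x (j + 1) n (by omega) (hX (j + 1) (by omega)) hbig hb2 _
          ?_).trans hb1
        intro u hu
        have h10 := List.mem_filter.1 (List.mem_toFinset.1 hu)
        refine ⟨?_, h10.2⟩
        obtain ⟨t, ht, b, rfl⟩ := mem_children.1 h10.1
        rw [List.length_append, h1 t ht]
        rfl
      unfold nxt
      rw [List.take_of_length_le h8]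
      exact h7
  refine List.mem_flatMap.2 ⟨w.length, List.mem_range.2 (by omega), ?_⟩
  rw [min_eq_left hw]
  have := key w.length le_rfl
  rwa [List.take_length] at this

end Pool.Agent.TH684.CX
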